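import Pool.Agent.Helper4.Jordan.Criterion

/-! The criterion: final assembly. -/

namespace Pool.Agent.Helper4.Jordan

namespace QuadraticJordanAlgebra

open QuadraticMap
open scoped commutatorElement IsMulCommutative

universe v

variable {k J : Type*} [CommRing k] [AddCommGroup J] [Module k J]
  {A : QuadraticJordanAlgebra k J}

/-- if `p` and `q` act on the generators by commuting maps then their commutator is central. -/
lemma commutator_central {p q : A.St} {P Q : Bool → J → J}
    (hp : ∀ σ a, p * A.x σ a * p⁻¹ = A.x σ (P σ a))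
    (hq : ∀ σ a, q * A.x σ a * q⁻¹ = A.x σ (Q σ a))
    (hPQ : ∀ σ a, P σ (Q σ a) = Q σ (P σ a)) (y : A.St) : ⁅p, q⁆ * y = y * ⁅p, q⁆ := by
  have h1 : ∀ y : A.St, ((q * p)⁻¹ * (p * q)) * y = y * ((q * p)⁻¹ * (p * q)) := by
    apply central_of_gen
    intro σ a
    have h2 : (p * q) * A.x σ a * (p * q)⁻¹ = A.x σ (P σ (Q σ a)) := by
      rw [← hp, ← hq]; group
    have h3 : (q * p) * A.x σ a * (q * p)⁻¹ = A.x σ (P σ (Q σ a)) := by
      rw [hPQ, ← hq, ← hp]; group
    calc (q * p)⁻¹ * (p * q) * A.x σ a
        = (q * p)⁻¹ * ((p * q) * A.x σ a * (p * q)⁻¹) * (p * q) := by group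
      _ = (q * p)⁻¹ * ((q * p) * A.x σ a * (q * p)⁻¹) * (p * q) := by rw [h2, h3]
      _ = _ := by group
  have h4 : ⁅p, q⁆ = (q * p)⁻¹ * (p * q) := by
    have : ⁅p, q⁆ = (q * p) * ((q * p)⁻¹ * (p * q)) * (q * p)⁻¹ := by
      rw [commutatorElement_def]; group
    rw [this, ← h1 (q * p)]; group
  rw [h4]; exact h1 y

variable {hdiv : A.IsDivision} (Z : Tor A hdiv)
variable {E : Type v} [Group E] {π : E →* A.St} (hsurj : Function.Surjective π)
  (hker : π.ker ≤ Subgroup.center E)
variable (hf0 : ∀ f : J →+ J →+ Additive (Subgroup.center E), InvForm A f →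
  ∀ a b, f a b = 0)

include hker hf0 in
lemma Y_rel {b : J} (hb : b ≠ 0) (a : J) {g : E} (hg : π g = A.w b) :
    g * Y hsurj Z false a * g⁻¹ = Y hsurj Z true (A.U b a) := by
  have hperf := Z.perfect
  obtain ⟨zh, hzh⟩ : ∃ zh, π zh = Z.z := hsurj _
  set U := Ue hdiv hb with hU
  set u : E := g * zh * g⁻¹ with hu
  -- actions of `z`, `u`
  have hπu : π u = A.w b * Z.z * (A.w b)⁻¹ := by rw [hu, map_mul, map_mul, map_inv, hg, hzh]
  set R : Bool → J → J := fun σ a => match σ with
    | true => U (Z.T false (U.symm a))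
    | false => U.symm (Z.T true (U a)) with hR
  have hRu : ∀ σ a, π u * A.x σ a * (π u)⁻¹ = A.x σ (R σ a) := by
    intro σ a
    cases σ with
    | true =>
      have h1 := rel (A := A) hb (U.symm a)
      have h1' : A.U b (U.symm a) = a := U.apply_symm_apply a
      rw [h1'] at h1
      have h2 := Z.hz false (U.symm a)
      have h3 := rel (A := A) hb (Z.T false (U.symm a))
      have h3' : A.U b (Z.T false (U.symm a)) = R true a := rfl
      rw [hπu, ← h1, ← h3', ← h3, ← h2]; group
    | false =>
      have h1 := rel_inv hdiv hb a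
      have h2 := Z.hz true (A.U b a)
      have h3 := rel' hdiv hb (R false a)
      have h3' : A.U b (R false a) = Z.T true (A.U b a) := U.apply_symm_apply _
      rw [h3'] at h3
      rw [← h3, ← h2, ← h1, hπu]; group
  have hcomm : ∀ σ a, R σ (Z.T σ a) = Z.T σ (R σ a) := by
    intro σ a
    cases σ with
    | true => exact (Z.hc b hb a).symm
    | false =>
      have h1 := Z.hc b hb (U a)
      show U.symm (Z.T true (U (Z.T false a))) = Z.T false (U.symm (Z.T true (U a)))
      rw [← hU, AddEquiv.symm_apply_apply] at h1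
      rw [h1, AddEquiv.symm_apply_apply]
  have hcz : ∀ y, ⁅π u, Z.z⁆ * y = y * ⁅π u, Z.z⁆ := commutator_central hRu Z.hz hcomm
  -- conjugation by `u` on `Y true`
  have hRsub : ∀ a c, R true (a - c) = R true a - R true c := by
    intro a c
    show U (Z.T false (U.symm (a - c))) = _
    rw [map_sub, map_sub, map_sub]
  have hY1 : ∀ a, u * Y hsurj Z true a * u⁻¹ = Y hsurj Z true (R true a) :=
    Y_conj Z hsurj hker hperf true (hRu true)
      (by intro a; rw [Z.hS, Z.hS, hRsub]; exact congrArg (· - R true a) (hcomm true a)) hcz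
  -- conjugation by `zh` on `Y false`
  have hY2 : ∀ a, zh * Y hsurj Z false a * zh⁻¹ = Y hsurj Z false (Z.T false a) :=
    Y_conj Z hsurj hker hperf false (R := Z.T false) (by rw [hzh]; exact Z.hz false)
      (fun a => (Z.S_T false a).symm)
      (by intro y; rw [hzh, commutatorElement_self, one_mul, mul_one])
  -- the difference of two lifts
  set D : J → E := fun c => g * Y hsurj Z false (U.symm c) * g⁻¹ * (Y hsurj Z true c)⁻¹ with hD
  have hDcen : ∀ c (y : E), D c * y = y * D c := by
    intro c y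
    have : D c ∈ π.ker := by
      rw [MonoidHom.mem_ker, hD]
      simp only
      rw [map_mul, map_mul, map_mul, map_inv, map_inv, π_Y, π_Y, hg, rel hb]
      have h1' : A.U b (U.symm c) = c := U.apply_symm_apply c
      rw [h1', mul_inv_cancel]
    have h2 := hker this
    rw [Subgroup.mem_center_iff] at h2
    exact (h2 y).symm
  have hDadd : ∀ c d, D (c + d) = D c * D d := by
    intro c d
    have h1 : D (c + d) = (g * Y hsurj Z false (U.symm c) * g⁻¹) * D d *
        (Y hsurj Z true c)⁻¹ := by
      simp only [hD]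
      rw [map_add, Y_add Z hsurj hker hf0, Y_add Z hsurj hker hf0]; group
    rw [h1, ← hDcen d, hDcen d, mul_assoc (_ * _ * _), hDcen d]
    simp only [hD]; group
  have hDR : ∀ c, D (R true c) = D c := by
    intro c
    have h1 : D (R true c) = u * D c * u⁻¹ := by
      simp only [hD]
      rw [← hY1]
      have h2 : U.symm (R true c) = Z.T false (U.symm c) := U.symm_apply_apply _
      rw [h2, ← hY2, hu]; group
    rw [h1, ← hDcen c u]; group
  have hD1 : ∀ c, D c = 1 := by
    intro c
    obtain ⟨e, he⟩ : ∃ e, R true e - e = c := by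
      refine ⟨U ((Z.S false).symm (U.symm c)), ?_⟩
      show U (Z.T false (U.symm (U ((Z.S false).symm (U.symm c))))) - _ = c
      rw [AddEquiv.symm_apply_apply, ← map_sub, ← Z.hS, AddEquiv.apply_symm_apply,
        AddEquiv.apply_symm_apply]
    have h1 := hDadd c e
    rw [← he, sub_add_cancel, hDR, he] at h1
    exact (right_eq_mul.mp h1)
  have h1 := hD1 (A.U b a)
  have h2 : U.symm (A.U b a) = a := U.symm_apply_apply a
  simp only [hD] at h1
  rw [h2, mul_inv_eq_one] at h1
  exact h1

include hsurj hker hf0 Z in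
theorem splits : ∃ s : A.St →* E, π.comp s = MonoidHom.id A.St := by
  have hrel : ∀ r ∈ A.stRels, FreeGroup.lift (fun p : Bool × J => Y hsurj Z p.1 p.2) r = 1 := by
    rintro r (⟨σ, a, b, rfl⟩ | ⟨a, b, hb, rfl⟩)
    · rw [map_mul, map_inv, map_mul, FreeGroup.lift_apply_of, FreeGroup.lift_apply_of,
        FreeGroup.lift_apply_of, Y_add Z hsurj hker hf0, mul_inv_cancel]
    · rw [map_mul, map_mul, map_mul, map_inv, map_inv, FreeGroup.lift_apply_of,
        FreeGroup.lift_apply_of, mul_inv_eq_one]
      apply Y_rel Z hsurj hker hf0 hb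
      rw [wWord]
      simp only [map_mul, FreeGroup.lift_apply_of, π_Y]
      rfl
  refine ⟨PresentedGroup.toGroup hrel, ?_⟩
  apply PresentedGroup.ext
  rintro ⟨σ, a⟩
  show π (PresentedGroup.toGroup hrel (PresentedGroup.of (σ, a))) = PresentedGroup.of (σ, a)
  rw [PresentedGroup.toGroup.of]
  exact π_Y Z hsurj σ a

end QuadraticJordanAlgebra

end Pool.Agent.Helper4.Jordan
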