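import Pool.Agent.Helper4.Jordan.BaseChange
import Pool.Agent.Helper4.Jordan.Criterion2

/-! Steinberg groups of division Jordan algebras over base rings with at least four scalars. -/

namespace Pool.Agent.Helper4.Jordan

open QuadraticMap
open scoped IsMulCommutative

namespace QuadraticJordanAlgebra

universe u v w

variable {R : Type u} {J : Type v} [CommRing R] [AddCommGroup J] [Module R J]
  {A : QuadraticJordanAlgebra R J} (hdiv : A.IsDivision)

/-- multiplication by a scalar -/
noncomputable def smulEquiv {s : R} (hs : s • A.one ≠ 0) : J ≃+ J :=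
  AddEquiv.ofBijective (DistribSMul.toAddMonoidHom J s)
    ⟨fun _ _ h => smul_inj hdiv hs h, fun a => smul_surj hdiv hs a⟩

lemma smulEquiv_apply {s : R} (hs : s • A.one ≠ 0) (a : J) : smulEquiv hdiv hs a = s • a := rfl

lemma smul_symm {s : R} (hs : s • A.one ≠ 0) (a : J) : s • (smulEquiv hdiv hs).symm a = a :=
  (smulEquiv hdiv hs).apply_symm_apply a

lemma symm_comm {s : R} (hs : s • A.one ≠ 0) (f : J → J) (hf : ∀ a, f (s • a) = s • f a) (a : J) :
    f ((smulEquiv hdiv hs).symm a) = (smulEquiv hdiv hs).symm (f a) := by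
  apply smul_inj hdiv hs
  rw [← hf, smul_symm, smul_symm]

/-- The torus element given by a scalar `c` with `c ≠ 0, 1, -1`. -/
noncomputable def scalarTor {c : R} (hc : c • A.one ≠ 0) (hc2 : (c * c) • A.one ≠ 0)
    (hc3 : (c * c - 1) • A.one ≠ 0) (hc4 : (1 - c * c) • A.one ≠ 0) : Tor A hdiv where
  z := A.w (c • A.one) * (A.w A.one)⁻¹
  T σ := match σ with
    | true => smulEquiv hdiv hc2
    | false => (smulEquiv hdiv hc2).symm
  S σ := match σ with
    | true => smulEquiv hdiv hc3
    | false => (smulEquiv hdiv hc4).trans (smulEquiv hdiv hc2).symm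
  hS := by
    intro σ a
    cases σ with
    | true => show (c * c - 1) • a = (c * c) • a - a; rw [sub_smul, one_smul]
    | false =>
      show (smulEquiv hdiv hc2).symm ((1 - c * c) • a) = (smulEquiv hdiv hc2).symm a - a
      apply smul_inj hdiv hc2
      rw [smul_symm, smul_sub, smul_symm, sub_smul, one_smul]
  hz := by
    intro σ a
    cases σ with
    | true =>
      show _ = A.x true ((c * c) • a)
      have h1 := rel_inv' (A := A) hdiv.1 a
      rw [A.U_one, Module.End.one_apply] at h1
      have h2 := rel (A := A) hc a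
      rw [U_smul_one, smul_smul, ← h1] at h2
      rw [← h2]; group
    | false =>
      show _ = A.x false ((smulEquiv hdiv hc2).symm a)
      have h1 := rel_inv hdiv hdiv.1 a
      rw [A.U_one, Module.End.one_apply] at h1
      have h2 := rel' hdiv hc ((smulEquiv hdiv hc2).symm a)
      rw [U_smul_one, smul_smul, smul_symm, ← h1] at h2
      rw [← h2]; group
  hc := by
    intro b hb a
    show (c * c) • (Ue hdiv hb ((smulEquiv hdiv hc2).symm ((Ue hdiv hb).symm a))) =
      Ue hdiv hb ((smulEquiv hdiv hc2).symm ((Ue hdiv hb).symm ((c * c) • a)))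
    have h1 : ∀ a, Ue hdiv hb ((c * c) • a) = (c * c) • Ue hdiv hb a := by
      intro a; rw [Ue_apply, Ue_apply, map_smul]
    have h2 : ∀ a, (Ue hdiv hb).symm ((c * c) • a) = (c * c) • (Ue hdiv hb).symm a := by
      intro a
      apply (Ue hdiv hb).injective
      rw [h1, AddEquiv.apply_symm_apply, AddEquiv.apply_symm_apply]
    rw [symm_comm hdiv hc2 (fun a => Ue hdiv hb a) h1, smul_symm, h2,
      ← symm_comm hdiv hc2 (fun a => (c * c) • a) (fun a => rfl), smul_symm]

include hdiv in
/-- existence of a good scalar -/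
lemma exists_scalar (hR : 4 ≤ (Set.range fun r : R => r • A.one).encard) :
    ∃ c : R, c • A.one ≠ 0 ∧ (c * c) • A.one ≠ 0 ∧ (c * c - 1) • A.one ≠ 0 ∧
      (1 - c * c) • A.one ≠ 0 := by
  classical
  obtain ⟨c, hc⟩ : ∃ c : R, c • A.one ∉ ({0, A.one, -A.one} : Finset J) := by
    by_contra hcon
    push Not at hcon
    have hsub : (Set.range fun r : R => r • A.one) ⊆ (({0, A.one, -A.one} : Finset J) : Set J) := by
      rintro _ ⟨r, rfl⟩
      exact hcon r
    have h1 := Set.encard_le_encard hsub
    rw [Set.encard_coe_eq_coe_finsetCard] at h1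
    have h2 : ({0, A.one, -A.one} : Finset J).card ≤ 3 := Finset.card_le_three
    have h3 := hR.trans h1
    have h4 : (4 : ℕ∞) ≤ 3 := h3.trans (by exact_mod_cast h2)
    exact absurd h4 (by norm_num)
  simp only [Finset.mem_insert, Finset.mem_singleton, not_or] at hc
  obtain ⟨h0, h1, h2⟩ := hc
  have h3 : (c * c - 1) • A.one ≠ 0 := by
    have : c * c - 1 = (c - 1) * (c + 1) := by ring
    rw [this]
    apply smul_mul_ne hdiv
    · rw [sub_smul, one_smul, sub_ne_zero]; exact h1
    · rw [add_smul, one_smul]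
      intro h; exact h2 (eq_neg_of_add_eq_zero_left h)
  refine ⟨c, h0, smul_mul_ne hdiv h0 h0, h3, ?_⟩
  rw [← neg_sub, neg_smul]
  exact neg_ne_zero.mpr h3

/-- a field all of whose elements satisfy `t ^ q = t` has at most `q` elements. -/
lemma card_le_of_pow {K : Type*} [Field K] {q : ℕ} (hq : 2 ≤ q) (h : ∀ t : K, t ^ q = t) :
    ∃ s : Finset K, (∀ t, t ∈ s) ∧ s.card ≤ q := by
  classical
  have hne : (Polynomial.X ^ q - Polynomial.X : Polynomial K) ≠ 0 :=
    FiniteField.X_pow_card_sub_X_ne_zero K (by omega)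
  refine ⟨(Polynomial.X ^ q - Polynomial.X : Polynomial K).roots.toFinset, fun t => ?_, ?_⟩
  · rw [Multiset.mem_toFinset, Polynomial.mem_roots hne]
    simp [Polynomial.IsRoot, h t]
  · calc _ ≤ (Polynomial.X ^ q - Polynomial.X : Polynomial K).roots.card :=
        Multiset.toFinset_card_le _
      _ ≤ (Polynomial.X ^ q - Polynomial.X : Polynomial K).natDegree := Polynomial.card_roots' _
      _ = q := FiniteField.X_pow_card_sub_X_natDegree_eq K (by omega)

include hdiv in
/-- vanishing of invariant alternating forms -/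
theorem forms_vanish (hR : 4 ≤ (Set.range fun r : R => r • A.one).encard)
    (h4 : ¬ A.IsoFq 4) (h9 : ¬ A.IsoFq 9) {C : Type w} [AddCommGroup C] (f : J →+ J →+ C)
    (hf : InvForm A f) (x y : J) : f x y = 0 := by
  obtain ⟨K, _, _, h1, h2, h3⟩ := exists_field hdiv
  let B := overField hdiv h1 h3
  have hB : WQJ.Inv B f := ⟨hf.alt, hf.inv⟩
  have hBdiv : B.IsDiv := fun b hb => hdiv.2 b hb
  have hk : ∀ s : Finset K, (∀ t, t ∈ s) → 4 ≤ s.card := by
    classical
    intro s hs
    have hsub : (Set.range fun r : R => r • A.one) ⊆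
        ((s.image fun κ : K => κ • A.one : Finset J) : Set J) := by
      rintro _ ⟨r, rfl⟩
      obtain ⟨κ, hκ⟩ := h2 r
      rw [Finset.coe_image]
      exact ⟨κ, hs κ, hκ _⟩
    have h5 := hR.trans (Set.encard_le_encard hsub)
    rw [Set.encard_coe_eq_coe_finsetCard] at h5
    have h6 : 4 ≤ (s.image fun κ : K => κ • A.one).card := by exact_mod_cast h5
    exact h6.trans Finset.card_image_le
  have hdim : ∀ q : ℕ, 2 ≤ q → (∀ s : Finset K, (∀ t, t ∈ s) → q ≤ s.card) →
      ¬ A.IsoFq q → (∀ t : K, t ^ q = t) → ∀ x : J, ∃ z : J, ∀ t : K, z ≠ t • x := by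
    intro q hq hcard hiso ht x
    by_contra hcon
    push Not at hcon
    apply hiso
    obtain ⟨t₀, ht₀⟩ := hcon A.one
    have ht₀0 : t₀ ≠ 0 := by
      rintro rfl
      rw [zero_smul] at ht₀
      exact hdiv.1 ht₀
    have hspan : ∀ z : J, ∃ t : K, z = t • A.one := by
      intro z
      obtain ⟨t, ht⟩ := hcon z
      refine ⟨t * t₀⁻¹, ?_⟩
      rw [ht₀, smul_smul, inv_mul_cancel_right₀ ht₀0, ht]
    refine ⟨K, inferInstance, AddEquiv.ofBijective
      ((LinearMap.toSpanSingleton K J A.one).toAddMonoidHom) ⟨?_, ?_⟩, ?_, ?_, ?_⟩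
    · intro a b hab
      have hab' : a • A.one = b • A.one := hab
      by_contra hne
      have h5 : (a - b) • A.one = 0 := by rw [sub_smul, hab', sub_self]
      exact hdiv.1 ((smul_eq_zero.mp h5).resolve_left (sub_ne_zero.mpr hne))
    · intro z
      obtain ⟨t, ht⟩ := hspan z
      exact ⟨t, ht.symm⟩
    · obtain ⟨s, hs, hs2⟩ := card_le_of_pow hq ht
      have h5 := hcard s hs
      let hfin : Fintype K := ⟨s, hs⟩
      rw [Nat.card_eq_fintype_card]
      exact le_antisymm hs2 h5
    · show (1 : K) • A.one = A.one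
      rw [one_smul]
    · intro a b
      show (a ^ 2 * b) • A.one = A.U (a • A.one) (b • A.one)
      rw [quad_of_frac hdiv h1 h3, lin_of_frac hdiv h1 (fun r c => map_smul (A.U A.one) r c),
        A.U_one, Module.End.one_apply, smul_smul, pow_two]
  refine hB.main hBdiv hk (fun _ ht => hdim 4 (by norm_num) hk h4 ht) ?_ x y
  intro h30 ht x
  refine hdim 9 (by norm_num) ?_ h9 ht x
  intro s hs
  let hfin : Fintype K := ⟨s, hs⟩
  have hc : s.card = Fintype.card K := rfl
  have hchar : CharP K 3 := by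
    rw [CharP.charP_iff_prime_eq_zero Nat.prime_three]
    exact_mod_cast h30
  obtain ⟨n, _, hn⟩ := FiniteField.card K 3
  have h4' := hk s hs
  rw [hc, hn] at h4' ⊢
  have hn2 : 2 ≤ (n : ℕ) := by
    by_contra hlt
    have : (n : ℕ) = 1 := by have := n.pos; omega
    rw [this] at h4'
    norm_num at h4'
  calc 9 = 3 ^ 2 := by norm_num
    _ ≤ 3 ^ (n : ℕ) := Nat.pow_le_pow_right (by norm_num) hn2

/-- **Theorem**: central closedness if there are at least four scalars. -/
theorem centrallyClosed (A : QuadraticJordanAlgebra R J) (hdiv : A.IsDivision)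
    (hR : 4 ≤ (Set.range fun r : R => r • A.one).encard)
    (h4 : ¬ A.IsoFq 4) (h9 : ¬ A.IsoFq 9) : IsCentrallyClosed.{v, w} A.St := by
  obtain ⟨c, h0, h1, h2, h3⟩ := exists_scalar hdiv hR
  let Z := scalarTor hdiv h0 h1 h2 h3
  refine ⟨Z.perfect, ?_⟩
  intro E _ π hsurj hker
  exact splits Z hsurj hker (fun f hf a b => forms_vanish hdiv hR h4 h9 f hf a b)

end QuadraticJordanAlgebra

end Pool.Agent.Helper4.Jordan
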