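import Pool.Agent.Helper4.Jordan.Form2

/-! Isotopes, and the vanishing theorem for invariant alternating forms. -/

namespace Pool.Agent.Helper4.Jordan

open QuadraticMap Polynomial

namespace WQJ

variable {k : Type*} {J : Type*} [Field k] [AddCommGroup J] [Module k J]

/-- the quadratic operator of the isotope -/
noncomputable def isoU (A : WQJ k J) (u : J) : QuadraticMap k J (Module.End k J) :=
  (LinearMap.mulRight k (A.U u)).compQuadraticMap A.U

lemma isoU_apply (A : WQJ k J) (u a : J) : A.isoU u a = A.U a * A.U u := rfl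

lemma polar_isoU (A : WQJ k J) (u a b : J) : polar (A.isoU u) a b = polar A.U a b * A.U u := by
  rw [polar, polar, isoU_apply, isoU_apply, isoU_apply, sub_mul, sub_mul]

/-- isotope with unit `x` -/
noncomputable def iso (A : WQJ k J) (x u : J) (h1 : A.U x * A.U u = 1) : WQJ k J where
  e := x
  U := A.isoU u
  U_e := h1
  QJ2 a b c := by
    rw [polar_isoU, polar_isoU, isoU_apply, Module.End.mul_apply, Module.End.mul_apply,
      Module.End.mul_apply, Module.End.mul_apply, A.QJ2, polar_U_U, Module.End.mul_apply,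
      Module.End.mul_apply]
  QJ3 a b := by
    simp only [isoU_apply, Module.End.mul_apply, A.QJ3, mul_assoc]

lemma exists_inv (A : WQJ k J) (h : A.IsDiv) {x : J} (hx : x ≠ 0) :
    ∃ u : J, u ≠ 0 ∧ A.U x * A.U u = 1 ∧ A.U u * A.U x = 1 := by
  obtain ⟨u, hu⟩ := (h x hx).2 x
  have h3 : A.U x = A.U x * A.U u * A.U x := by
    conv_lhs => rw [← hu]
    exact A.QJ3 x u
  have h1 : A.U u * A.U x = 1 := by
    refine LinearMap.ext fun a => ?_
    apply (h x hx).1
    have := congrArg (fun g : Module.End k J => g a) h3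
    simp only [Module.End.mul_apply] at this
    rw [Module.End.mul_apply, Module.End.one_apply]
    exact this.symm
  have h2 : A.U x * A.U u = 1 := by
    refine LinearMap.ext fun a => ?_
    obtain ⟨b, rfl⟩ := (h x hx).2 a
    have := congrArg (fun g : Module.End k J => g b) h3
    simp only [Module.End.mul_apply] at this
    rw [Module.End.mul_apply, Module.End.one_apply]
    exact this.symm
  refine ⟨u, ?_, h2, h1⟩
  rintro rfl
  rw [map_zero] at hu
  exact hx hu.symm

lemma iso_isDiv (A : WQJ k J) (h : A.IsDiv) (x u : J) (hu : u ≠ 0)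
    (h1 : A.U x * A.U u = 1) : (A.iso x u h1).IsDiv := by
  intro b hb
  change Function.Bijective (fun a => A.U b (A.U u a))
  exact (h b hb).comp (h u hu)

variable {Cc : Type*} [AddCommGroup Cc] {f : J →+ J →+ Cc}

lemma iso_inv {A : WQJ k J} (hf : Inv A f) (x u : J) (hu : u ≠ 0) (h1 : A.U x * A.U u = 1) :
    Inv (A.iso x u h1) f where
  alt := hf.alt
  inv b hb a a' := by
    change f (A.U b (A.U u a)) (A.U b (A.U u a')) = _
    rw [hf.inv b hb, hf.inv u hu]

/-- the vanishing theorem at the unit -/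
lemma Inv.main_e {A : WQJ k J} (hf : Inv A f) (h : A.IsDiv) (he : A.e ≠ 0)
    (hk : ∀ s : Finset k, (∀ t, t ∈ s) → 4 ≤ s.card)
    (hdim2 : (2 : k) = 0 → (∀ t : k, t ^ 4 = t) → ∃ z : J, ∀ t : k, z ≠ t • A.e)
    (hdim3 : (3 : k) = 0 → (∀ t : k, t ^ 9 = t) → ∃ z : J, ∀ t : k, z ≠ t • A.e)
    (y : J) : f A.e y = 0 := by
  by_cases h2 : (2 : k) = 0
  · have h2' : (2 : k[X]) = 0 := by
      rw [← map_ofNat (Polynomial.C : k →+* k[X]) 2, h2, map_zero]
    exact hf.caseCD h he (q := 4) (m := 4) (by norm_num) (fun p => ⟨_, DD_two h2' p⟩)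
      (fun ht => frob_prod (by norm_num) ht hk) (hdim2 h2) y
  by_cases h3 : (3 : k) = 0
  · have h3' : (3 : k[X]) = 0 := by
      rw [← map_ofNat (Polynomial.C : k →+* k[X]) 3, h3, map_zero]
    refine hf.caseCD h he (q := 9) (m := 2) (by norm_num) (fun p => ⟨_, DD_three h3' p⟩)
      (fun ht => frob_prod (by norm_num) ht ?_) (hdim3 h3) y
    intro s hs
    let hfin : Fintype k := ⟨s, hs⟩
    have hc : s.card = Fintype.card k := rfl
    have hchar : CharP k 3 := by
      rw [CharP.charP_iff_prime_eq_zero Nat.prime_three]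
      exact_mod_cast h3
    obtain ⟨n, _, hn⟩ := FiniteField.card k 3
    have h4 := hk s hs
    rw [hc, hn] at h4 ⊢
    have hn2 : 2 ≤ (n : ℕ) := by
      by_contra hlt
      have : (n : ℕ) = 1 := by have := n.pos; omega
      rw [this] at h4
      norm_num at h4
    calc 9 = 3 ^ 2 := by norm_num
      _ ≤ 3 ^ (n : ℕ) := Nat.pow_le_pow_right (by norm_num) hn2
  by_cases h5 : (5 : k) = 0
  · exact hf.caseB h he h5 y
  · exact hf.caseA he h2 h3 h5 _ _

/-- **Vanishing theorem**. -/
theorem Inv.main {A : WQJ k J} (hf : Inv A f) (h : A.IsDiv)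
    (hk : ∀ s : Finset k, (∀ t, t ∈ s) → 4 ≤ s.card)
    (hdim2 : (2 : k) = 0 → (∀ t : k, t ^ 4 = t) → ∀ x : J, ∃ z : J, ∀ t : k, z ≠ t • x)
    (hdim3 : (3 : k) = 0 → (∀ t : k, t ^ 9 = t) → ∀ x : J, ∃ z : J, ∀ t : k, z ≠ t • x)
    (x y : J) : f x y = 0 := by
  by_cases hx : x = 0
  · rw [hx, map_zero]; rfl
  obtain ⟨u, hu, h1, _⟩ := exists_inv A h hx
  exact (iso_inv hf x u hu h1).main_e (iso_isDiv A h x u hu h1) hx hk
    (fun a b => hdim2 a b x) (fun a b => hdim3 a b x) y

end WQJ

end Pool.Agent.Helper4.Jordan
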