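import Pool.Agent.Helper4.Jordan.Defs
import Pool.Agent.Helper4.Jordan.Iso

/-! A division quadratic Jordan algebra over a commutative ring is one over a field. -/

namespace Pool.Agent.Helper4.Jordan

open QuadraticMap

namespace QuadraticJordanAlgebra

universe u v

variable {R : Type u} {J : Type v} [CommRing R] [AddCommGroup J] [Module R J]
  {A : QuadraticJordanAlgebra R J} (hdiv : A.IsDivision)

lemma U_smul_one (s : R) (a : J) : A.U (s • A.one) a = s • s • a := by
  rw [QuadraticMap.map_smul, A.U_one, LinearMap.smul_apply, Module.End.one_apply, smul_smul]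

include hdiv in
lemma smul_inj {s : R} (hs : s • A.one ≠ 0) {a b : J} (h : s • a = s • b) : a = b := by
  apply (hdiv.2 _ hs).1
  rw [U_smul_one, U_smul_one, h]

include hdiv in
lemma smul_surj {s : R} (hs : s • A.one ≠ 0) (a : J) : ∃ b, s • b = a := by
  obtain ⟨b, hb⟩ := (hdiv.2 _ hs).2 a
  rw [U_smul_one] at hb
  exact ⟨_, hb⟩

include hdiv in
lemma smul_mul_ne {s t : R} (hs : s • A.one ≠ 0) (ht : t • A.one ≠ 0) : (s * t) • A.one ≠ 0 := by
  intro h
  rw [mul_smul] at h
  exact ht (smul_inj hdiv hs (by rw [h, smul_zero]))

/-- the ring of fractions acting on `J` -/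
def frac (hdiv : A.IsDivision) : Subring (Module.End R J) where
  carrier := {T | ∃ s r : R, s • A.one ≠ 0 ∧ ∀ a, s • T a = r • a}
  mul_mem' := by
    rintro T T' ⟨s, r, hs, h⟩ ⟨s', r', hs', h'⟩
    refine ⟨s * s', r * r', smul_mul_ne hdiv hs hs', fun a => ?_⟩
    rw [Module.End.mul_apply, mul_comm s s', mul_smul, h, smul_comm, h', smul_smul]
  one_mem' := ⟨1, 1, by rw [one_smul]; exact hdiv.1, fun a => by simp⟩
  add_mem' := by
    rintro T T' ⟨s, r, hs, h⟩ ⟨s', r', hs', h'⟩
    refine ⟨s * s', s' * r + s * r', smul_mul_ne hdiv hs hs', fun a => ?_⟩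
    rw [LinearMap.add_apply, smul_add, mul_comm s s', mul_smul, h, mul_comm s' s, mul_smul, h',
      smul_smul, smul_smul, add_smul]
  zero_mem' := ⟨1, 0, by rw [one_smul]; exact hdiv.1, fun a => by simp⟩
  neg_mem' := by
    rintro T ⟨s, r, hs, h⟩
    refine ⟨s, -r, hs, fun a => ?_⟩
    rw [LinearMap.neg_apply, smul_neg, h, neg_smul]

lemma mem_frac {T : Module.End R J} : T ∈ frac hdiv ↔ ∃ s r : R, s • A.one ≠ 0 ∧
    ∀ a, s • T a = r • a := Iff.rfl

lemma frac_isField : IsField (frac hdiv) where
  exists_pair_ne := ⟨0, 1, by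
    intro h
    have h1 : (0 : Module.End R J) = 1 := congrArg Subtype.val h
    have h2 := LinearMap.congr_fun h1 A.one
    rw [LinearMap.zero_apply, Module.End.one_apply] at h2
    exact hdiv.1 h2.symm⟩
  mul_comm := by
    rintro ⟨T, s, r, hs, h⟩ ⟨T', s', r', hs', h'⟩
    apply Subtype.ext
    apply LinearMap.ext
    intro a
    apply smul_inj hdiv (smul_mul_ne hdiv hs hs')
    show (s * s') • T (T' a) = (s * s') • T' (T a)
    have h1 : (s * s') • T (T' a) = r • r' • a := by
      rw [mul_comm, mul_smul, h, smul_comm, h']
    have h2 : (s * s') • T' (T a) = r' • r • a := by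
      rw [mul_smul, h', smul_comm, h]
    rw [h1, h2, smul_comm]
  mul_inv_cancel := by
    rintro ⟨T, s, r, hs, h⟩ hT
    have hr : r • A.one ≠ 0 := by
      intro hr
      apply hT
      apply Subtype.ext
      apply LinearMap.ext
      intro a
      show T a = 0
      apply smul_inj hdiv hs
      rw [h, smul_zero]
      by_contra hra
      have h1 : A.U (r • a) A.one = 0 := by
        rw [QuadraticMap.map_smul, LinearMap.smul_apply, mul_smul]
        have h2 := U_smul_one (A := A) r (A.U a A.one)
        rw [hr, QuadraticMap.map_zero] at h2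
        rw [← h2]; rfl
      exact hdiv.1 ((hdiv.2 _ hra).1 (by rw [h1, map_zero]))
    choose g hg using smul_surj hdiv hr
    let T' : Module.End R J :=
      { toFun := fun a => g (s • a)
        map_add' := by
          intro a b
          apply smul_inj hdiv hr
          rw [smul_add, hg, smul_add, hg, hg]
        map_smul' := by
          intro t a
          apply smul_inj hdiv hr
          rw [RingHom.id_apply, hg, smul_comm r t, hg, smul_comm] }
    have hT' : ∀ a, r • T' a = s • a := fun a => hg _
    refine ⟨⟨T', r, s, hr, hT'⟩, ?_⟩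
    apply Subtype.ext
    apply LinearMap.ext
    intro a
    show T (T' a) = a
    apply smul_inj hdiv hs
    rw [h, hT']

include hdiv in
/-- `J` is a vector space over a field of fractions of the base ring. -/
theorem exists_field : ∃ (K : Type v) (_ : Field K) (_ : Module K J),
    (∀ κ : K, ∃ s r : R, s • A.one ≠ 0 ∧ ∀ a : J, s • κ • a = r • a) ∧
    (∀ r : R, ∃ κ : K, ∀ a : J, κ • a = r • a) ∧
    (∀ (κ : K) (r : R) (a : J), κ • r • a = r • κ • a) := by
  let hF : Field (frac hdiv) := (frac_isField hdiv).toField
  let hM : Module (frac hdiv) J :=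
    { smul := fun T a => T.1 a
      one_smul := fun a => rfl
      mul_smul := fun T T' a => rfl
      smul_zero := fun T => map_zero T.1
      smul_add := fun T => map_add T.1
      add_smul := fun T T' a => rfl
      zero_smul := fun a => rfl }
  refine ⟨frac hdiv, hF, hM, ?_, ?_, ?_⟩
  · rintro ⟨T, s, r, hs, h⟩
    exact ⟨s, r, hs, h⟩
  · intro r
    exact ⟨⟨r • 1, 1, r, by rw [one_smul]; exact hdiv.1, fun a => by simp⟩, fun a => rfl⟩
  · intro κ r a
    exact map_smul κ.1 r a

section

variable {K : Type v} [Field K] [Module K J]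
  (h1 : ∀ κ : K, ∃ s r : R, s • A.one ≠ 0 ∧ ∀ a : J, s • κ • a = r • a)
  (h3 : ∀ (κ : K) (r : R) (a : J), κ • r • a = r • κ • a)

include hdiv h1 in
lemma lin_of_frac {f : J → J} (hf : ∀ (r : R) a, f (r • a) = r • f a) (κ : K) (a : J) :
    f (κ • a) = κ • f a := by
  obtain ⟨s, r, hs, h⟩ := h1 κ
  apply smul_inj hdiv hs
  rw [h, ← hf, h, hf]

include hdiv h1 h3 in
lemma quad_of_frac (κ : K) (a b : J) : A.U (κ • a) b = (κ * κ) • A.U a b := by
  obtain ⟨s, r, hs, h⟩ := h1 κ
  apply smul_inj hdiv (smul_mul_ne hdiv hs hs)
  have h4 : (s * s) • A.U (κ • a) b = A.U (s • κ • a) b := by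
    rw [QuadraticMap.map_smul (a := s)]; rfl
  have h5 : (s * s) • (κ * κ) • A.U a b = (r * r) • A.U a b := by
    rw [mul_smul, mul_smul κ, ← h3, h, h, mul_smul]
  rw [h4, h, h5, QuadraticMap.map_smul]; rfl

/-- the weak quadratic Jordan structure over the field of fractions -/
noncomputable def overField (hdiv : A.IsDivision)
    (h1 : ∀ κ : K, ∃ s r : R, s • A.one ≠ 0 ∧ ∀ a : J, s • κ • a = r • a)
    (h3 : ∀ (κ : K) (r : R) (a : J), κ • r • a = r • κ • a) : WQJ K J where
  e := A.one
  U :=
    { toFun := fun a =>
        { toFun := A.U a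
          map_add' := map_add _
          map_smul' := lin_of_frac hdiv h1 (fun r b => map_smul (A.U a) r b) }
      toFun_smul := by
        intro κ a
        apply LinearMap.ext
        intro b
        exact quad_of_frac hdiv h1 h3 κ a b
      exists_companion' := by
        refine ⟨LinearMap.mk₂ K (fun a b =>
          { toFun := fun c => (polar (⇑A.U) a b : Module.End R J) c
            map_add' := fun c d => map_add (polar (⇑A.U) a b : Module.End R J) c d
            map_smul' := lin_of_frac hdiv h1
              (fun r c => map_smul (polar (⇑A.U) a b : Module.End R J) r c) })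
          ?_ ?_ ?_ ?_, ?_⟩
        · intro a a' b
          apply LinearMap.ext
          intro c
          exact LinearMap.congr_fun (QuadraticMap.polar_add_left A.U a a' b) c
        · intro κ a b
          apply LinearMap.ext
          intro c
          exact lin_of_frac hdiv h1 (f := fun a => polar A.U a b c)
            (fun r a => LinearMap.congr_fun (QuadraticMap.polar_smul_left A.U r a b) c) κ a
        · intro a b b'
          apply LinearMap.ext
          intro c
          exact LinearMap.congr_fun (QuadraticMap.polar_add_right A.U a b b') c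
        · intro κ a b
          apply LinearMap.ext
          intro c
          exact lin_of_frac hdiv h1 (f := fun b => polar A.U a b c)
            (fun r b => LinearMap.congr_fun (QuadraticMap.polar_smul_right A.U r a b) c) κ b
        · intro a b
          apply LinearMap.ext
          intro c
          show A.U (a + b) c = A.U a c + A.U b c + polar A.U a b c
          rw [polar, LinearMap.sub_apply, LinearMap.sub_apply]; abel }
  U_e := by
    apply LinearMap.ext
    intro c
    exact LinearMap.congr_fun A.U_one c
  QJ2 := by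
    intro a b c
    exact A.QJ2 a b c
  QJ3 := by
    intro a b
    apply LinearMap.ext
    intro c
    exact LinearMap.congr_fun (A.QJ3 a b) c

end

end QuadraticJordanAlgebra

end Pool.Agent.Helper4.Jordan
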