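import Pool.Agent.Helper4.Jordan.Steinberg

/-! A criterion for the Steinberg group of a division Jordan algebra to be centrally closed. -/

namespace Pool.Agent.Helper4.Jordan

namespace QuadraticJordanAlgebra

open QuadraticMap
open scoped commutatorElement IsMulCommutative

variable {k J : Type*} [CommRing k] [AddCommGroup J] [Module k J]
  {A : QuadraticJordanAlgebra k J}

/-- `U(b)` as an additive equivalence -/
noncomputable def Ue (hdiv : A.IsDivision) {b : J} (hb : b ≠ 0) : J ≃+ J :=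
  AddEquiv.ofBijective (A.U b : J →ₗ[k] J) (hdiv.2 b hb)

lemma Ue_apply (hdiv : A.IsDivision) {b : J} (hb : b ≠ 0) (a : J) : Ue hdiv hb a = A.U b a := rfl

/-- invariant alternating biadditive forms -/
structure InvForm (A : QuadraticJordanAlgebra k J) {C : Type*} [AddCommGroup C]
    (f : J →+ J →+ C) : Prop where
  alt : ∀ a, f a a = 0
  inv : ∀ b, b ≠ 0 → ∀ a a', f (A.U b a) (A.U b a') = f a a'

/-- An element of the Steinberg group acting on both root groups without fixed points,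
compatible with all `U(b)`. -/
structure Tor (A : QuadraticJordanAlgebra k J) (hdiv : A.IsDivision) where
  z : A.St
  T : Bool → J ≃+ J
  S : Bool → J ≃+ J
  hS : ∀ σ a, S σ a = T σ a - a
  hz : ∀ σ a, z * A.x σ a * z⁻¹ = A.x σ (T σ a)
  hc : ∀ (b : J) (hb : b ≠ 0) (a : J),
    T true (Ue hdiv hb (T false ((Ue hdiv hb).symm a))) =
      Ue hdiv hb (T false ((Ue hdiv hb).symm (T true a)))

variable {hdiv : A.IsDivision} (Z : Tor A hdiv)

include Z in
lemma Tor.perfect : commutator A.St = ⊤ := by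
  rw [eq_top_iff, ← A.closure_x, Subgroup.closure_le]
  rintro _ ⟨⟨σ, a⟩, rfl⟩
  have h : A.x σ a = ⁅Z.z, A.x σ ((Z.S σ).symm a)⁆ := by
    rw [commutatorElement_def, Z.hz, ← x_sub, ← Z.hS, AddEquiv.apply_symm_apply]
  simp only [SetLike.mem_coe]
  rw [h]
  exact Subgroup.commutator_mem_commutator (Subgroup.mem_top _) (Subgroup.mem_top _)

lemma Tor.S_T (σ : Bool) (a : J) : Z.S σ (Z.T σ a) = Z.T σ (Z.S σ a) := by
  rw [Z.hS, Z.hS, map_sub]

lemma Tor.Ssymm_T (σ : Bool) (a : J) : (Z.S σ).symm (Z.T σ a) = Z.T σ ((Z.S σ).symm a) := by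
  apply (Z.S σ).injective
  rw [AddEquiv.apply_symm_apply, Z.S_T, AddEquiv.apply_symm_apply]

section lift

universe v
variable {E : Type v} [Group E] {π : E →* A.St} (hsurj : Function.Surjective π)
  (hker : π.ker ≤ Subgroup.center E)

/-- a lift of the generators -/
noncomputable def X (hsurj : Function.Surjective π) (σ : Bool) (a : J) : E :=
  Function.surjInv hsurj (A.x σ a)

lemma π_X (σ : Bool) (a : J) : π (X hsurj σ a) = A.x σ a := Function.surjInv_eq hsurj _

lemma x_comm (σ : Bool) (a b : J) : A.x σ a * A.x σ b = A.x σ b * A.x σ a := by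
  rw [← x_add, ← x_add, add_comm]

include hker in
lemma comm_central {g e : E} (h : π g * π e = π e * π g) (y : E) : ⁅g, e⁆ * y = y * ⁅g, e⁆ := by
  have : ⁅g, e⁆ ∈ π.ker := by
    rw [MonoidHom.mem_ker, map_commutatorElement, commutatorElement_eq_one_iff_mul_comm]
    exact h
  have h2 := hker this
  rw [Subgroup.mem_center_iff] at h2
  exact (h2 y).symm

omit [CommRing k] [AddCommGroup J] [Module k J] in
lemma comm_mul_right {g e e' : E} (h : ∀ y : E, ⁅g, e'⁆ * y = y * ⁅g, e'⁆) :
    ⁅g, e * e'⁆ = ⁅g, e⁆ * ⁅g, e'⁆ := by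
  have h1 : ⁅g, e * e'⁆ = ⁅g, e⁆ * (e * ⁅g, e'⁆ * e⁻¹) := by
    simp only [commutatorElement_def]; group
  rw [h1, ← h e]; group

omit [CommRing k] [AddCommGroup J] [Module k J] in
lemma comm_mul_left {g g' e : E} (h : ∀ y : E, ⁅g', e⁆ * y = y * ⁅g', e⁆) :
    ⁅g * g', e⁆ = ⁅g, e⁆ * ⁅g', e⁆ := by
  have h1 : ⁅g * g', e⁆ = (g * ⁅g', e⁆ * g⁻¹) * ⁅g, e⁆ := by
    simp only [commutatorElement_def]; group
  have h2 := h g
  have h3 := h ⁅g, e⁆
  rw [h1, ← h2, mul_inv_cancel_right, h3]

/-- The commutator form of a central extension. -/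
noncomputable def form (hsurj : Function.Surjective π) (hker : π.ker ≤ Subgroup.center E)
    (σ : Bool) : J →+ J →+ Additive (Subgroup.center E) :=
  AddMonoidHom.mk' (fun a => AddMonoidHom.mk' (fun b => Additive.ofMul
    ⟨⁅X hsurj σ a, X hsurj σ b⁆, by
      rw [Subgroup.mem_center_iff]
      intro y
      exact (comm_central hker (by rw [π_X, π_X, x_comm]) y).symm⟩)
    (by
      intro b c
      rw [← ofMul_mul]
      congr 1
      apply Subtype.ext
      show ⁅X hsurj σ a, X hsurj σ (b + c)⁆ = ⁅X hsurj σ a, X hsurj σ b⁆ * ⁅X hsurj σ a, X hsurj σ c⁆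
      rw [← comm_mul_right (comm_central hker (by rw [π_X, π_X, x_comm]))]
      exact comm_eq hker rfl (by rw [map_mul, π_X, π_X, π_X, x_add])))
    (by
      intro a b
      ext c
      show ⁅X hsurj σ (a + b), X hsurj σ c⁆ = ⁅X hsurj σ a, X hsurj σ c⁆ * ⁅X hsurj σ b, X hsurj σ c⁆
      rw [← comm_mul_left (comm_central hker (by rw [π_X, π_X, x_comm]))]
      exact comm_eq hker (by rw [map_mul, π_X, π_X, π_X, x_add]) rfl)

lemma form_apply (σ : Bool) (a b : J) :
    ((Additive.toMul (form hsurj hker σ a b) : Subgroup.center E) : E) =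
      ⁅X hsurj σ a, X hsurj σ b⁆ := rfl

lemma form_U {b : J} (hb : b ≠ 0) (a c : J) :
    form hsurj hker true (A.U b a) (A.U b c) = form hsurj hker false a c := by
  apply Additive.toMul.injective
  apply Subtype.ext
  rw [form_apply, form_apply]
  obtain ⟨g, hg⟩ := hsurj (A.w b)
  have h1 : ⁅X hsurj true (A.U b a), X hsurj true (A.U b c)⁆ =
      ⁅g * X hsurj false a * g⁻¹, g * X hsurj false c * g⁻¹⁆ := by
    apply comm_eq hker
    · rw [map_mul, map_mul, map_inv, π_X, π_X, hg, rel hb]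
    · rw [map_mul, map_mul, map_inv, π_X, π_X, hg, rel hb]
  have h2 : ⁅g * X hsurj false a * g⁻¹, g * X hsurj false c * g⁻¹⁆ =
      g * ⁅X hsurj false a, X hsurj false c⁆ * g⁻¹ := by
    simp only [commutatorElement_def]; group
  have h3 := comm_central hker (g := X hsurj false a) (e := X hsurj false c)
    (by rw [π_X, π_X, x_comm]) g
  rw [h1, h2, ← h3]; group

include hdiv in
lemma form_eq (a c : J) : form hsurj hker true a c = form hsurj hker false a c := by
  have h := form_U (A := A) hsurj hker hdiv.1 a c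
  rwa [A.U_one] at h

include hdiv in
lemma form_Inv : InvForm A (form hsurj hker true) where
  alt := by
    intro a
    apply Additive.toMul.injective
    apply Subtype.ext
    rw [form_apply, commutatorElement_self]; rfl
  inv := by
    intro b hb a c
    rw [form_eq (hdiv := hdiv) hsurj hker a c]
    exact form_U hsurj hker hb a c

variable (hf0 : ∀ f : J →+ J →+ Additive (Subgroup.center E), InvForm A f →
  ∀ a b, f a b = 0)

include hdiv hker hf0 in
lemma X_comm (hsurj : Function.Surjective π) (σ : Bool) {u v : E} {a b : J} (hu : π u = A.x σ a) (hv : π v = A.x σ b) :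
    u * v = v * u := by
  have h : ⁅u, v⁆ = ⁅X hsurj σ a, X hsurj σ b⁆ := comm_eq hker (by rw [hu, π_X]) (by rw [hv, π_X])
  have h1 : form hsurj hker true a b = 0 := hf0 _ (form_Inv (hdiv := hdiv) hsurj hker) a b
  have h2 : form hsurj hker σ a b = 0 := by
    cases σ with
    | true => exact h1
    | false => rw [← form_eq (hdiv := hdiv) hsurj hker, h1]
  have h3 := form_apply hsurj hker σ a b
  rw [h2] at h3
  rw [← h3] at h
  exact commutatorElement_eq_one_iff_mul_comm.mp h

/-- The canonical lift of the generators. -/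
noncomputable def Y (hsurj : Function.Surjective π) (Z : Tor A hdiv) (σ : Bool) (a : J) : E :=
  ⁅Function.surjInv hsurj Z.z, X hsurj σ ((Z.S σ).symm a)⁆

lemma π_Y (σ : Bool) (a : J) : π (Y hsurj Z σ a) = A.x σ a := by
  rw [Y, map_commutatorElement, Function.surjInv_eq hsurj, π_X, commutatorElement_def, Z.hz,
    ← x_sub, ← Z.hS, AddEquiv.apply_symm_apply]

include hker hf0 in
lemma Y_add (σ : Bool) (a b : J) : Y hsurj Z σ (a + b) = Y hsurj Z σ a * Y hsurj Z σ b := by
  have h1 : Y hsurj Z σ (a + b) = ⁅Function.surjInv hsurj Z.z,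
      X hsurj σ ((Z.S σ).symm a) * X hsurj σ ((Z.S σ).symm b)⁆ := by
    apply comm_eq hker rfl
    rw [map_mul, π_X, π_X, π_X, map_add, x_add]
  have h2 : X hsurj σ ((Z.S σ).symm a) * Y hsurj Z σ b =
      Y hsurj Z σ b * X hsurj σ ((Z.S σ).symm a) :=
    X_comm (hdiv := hdiv) hker hf0 hsurj σ (π_X hsurj _ _) (π_Y Z hsurj _ _)
  rw [h1]
  have h3 : ⁅Function.surjInv hsurj Z.z,
      X hsurj σ ((Z.S σ).symm a) * X hsurj σ ((Z.S σ).symm b)⁆ =
      Y hsurj Z σ a * (X hsurj σ ((Z.S σ).symm a) * Y hsurj Z σ b *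
        (X hsurj σ ((Z.S σ).symm a))⁻¹) := by
    rw [Y, Y]; simp only [commutatorElement_def]; group
  rw [h3, h2]; group

include hker in
/-- The key step: conjugation by a lift of an element commuting with `z` modulo the centre and
acting on the root group by a map commuting with `S`. -/
lemma Y_conj (hperf : commutator A.St = ⊤) (σ : Bool) {u : E} {R : J → J}
    (hR : ∀ a, π u * A.x σ a * (π u)⁻¹ = A.x σ (R a))
    (hRS : ∀ a, R (Z.S σ a) = Z.S σ (R a))
    (hcz : ∀ y, ⁅π u, Z.z⁆ * y = y * ⁅π u, Z.z⁆) (a : J) :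
    u * Y hsurj Z σ a * u⁻¹ = Y hsurj Z σ (R a) := by
  set zh := Function.surjInv hsurj Z.z with hzh
  have hz : π zh = Z.z := Function.surjInv_eq hsurj _
  -- `⁅u, zh⁆` is central in `E`
  have hcen : ∀ y : E, ⁅u, zh⁆ * y = y * ⁅u, zh⁆ := by
    apply center_lift hker hsurj hperf
    intro y
    rw [map_commutatorElement, hz]
    exact hcz y
  have h1 : u * Y hsurj Z σ a * u⁻¹ =
      ⁅u * zh * u⁻¹, u * X hsurj σ ((Z.S σ).symm a) * u⁻¹⁆ := by
    rw [Y, ← hzh]; simp only [commutatorElement_def]; group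
  have h2 : u * zh * u⁻¹ = ⁅u, zh⁆ * zh := by
    simp only [commutatorElement_def]; group
  have h3 : (Z.S σ).symm (R a) = R ((Z.S σ).symm a) := by
    apply (Z.S σ).injective
    rw [AddEquiv.apply_symm_apply, ← hRS, AddEquiv.apply_symm_apply]
  rw [h1, h2]
  have h4 : ∀ e : E, ⁅⁅u, zh⁆ * zh, e⁆ = ⁅zh, e⁆ := by
    intro e
    rw [commutatorElement_def, commutatorElement_def, mul_inv_rev]
    have h5 := hcen (zh * e * zh⁻¹)
    calc ⁅u, zh⁆ * zh * e * (zh⁻¹ * ⁅u, zh⁆⁻¹) * e⁻¹ = (⁅u, zh⁆ * (zh * e * zh⁻¹)) * ⁅u, zh⁆⁻¹ * e⁻¹ := by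
          group
      _ = _ := by rw [h5]; group
  rw [h4, Y]
  apply comm_eq hker rfl
  rw [map_mul, map_mul, map_inv, π_X, π_X, hR, h3]

end lift

end QuadraticJordanAlgebra

end Pool.Agent.Helper4.Jordan
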