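import Mathlib

/-! Definitions: quadratic Jordan algebras, their Steinberg groups, central closedness. -/

namespace Pool.Agent.Helper4.Jordan

open QuadraticMap

/-- The triple product `{a b c} = U(a+c)b - U(a)b - U(c)b` of a quadratic operator `U`. -/
def triple {k J : Type*} [CommRing k] [AddCommGroup J] [Module k J]
    (U : QuadraticMap k J (Module.End k J)) (a b c : J) : J := polar U a c b

/-- A unital quadratic Jordan algebra over the commutative ring `k`: a `k`-module `J` with a unit
element and a quadratic map `U : J → End_k(J)` such that the identities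
`U(1) = id`, `{a b U(a)c} = U(a){b a c}`, `U(U(a)b) = U(a)U(b)U(a)` hold strictly, that is,
together with all their linearizations (the linearizations which are not automatic are listed). -/
structure QuadraticJordanAlgebra (k J : Type*) [CommRing k] [AddCommGroup J] [Module k J] where
  one : J
  U : QuadraticMap k J (Module.End k J)
  U_one : U one = 1
  QJ2 : ∀ a b c, triple U a b (U a c) = U a (triple U b a c)
  QJ2_lin : ∀ a d b c, triple U d b (U a c) + triple U a b (polar U a d c) =
    polar U a d (triple U b a c) + U a (triple U b d c)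
  QJ3 : ∀ a b, U (U a b) = U a * U b * U a
  QJ3_lin₁ : ∀ a d b, polar U (U a b) (polar U a d b) =
    polar U a d * U b * U a + U a * U b * polar U a d
  QJ3_lin₂ : ∀ a d b, polar U (U a b) (U d b) + U (polar U a d b) =
    U a * U b * U d + U d * U b * U a + polar U a d * U b * polar U a d

namespace QuadraticJordanAlgebra

variable {k J : Type*} [CommRing k] [AddCommGroup J] [Module k J]
  (A : QuadraticJordanAlgebra k J)

/-- A division Jordan algebra: `1 ≠ 0` and every `b ≠ 0` is invertible, i.e. `U(b)` is
bijective. -/
def IsDivision : Prop := A.one ≠ 0 ∧ ∀ b : J, b ≠ 0 → Function.Bijective (A.U b)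

/-- `J` is isomorphic, as a Jordan algebra, to the field with `q` elements (a field `F` is a
Jordan algebra by `U(b)a = b²a`); that is, there is an additive bijection from a field with `q`
elements to `J` which respects the unit elements and the `U`-operators. -/
def IsoFq.{u, v} {k : Type u} {J : Type v} [CommRing k] [AddCommGroup J] [Module k J]
    (A : QuadraticJordanAlgebra k J) (q : ℕ) : Prop :=
  ∃ (F : Type v) (_ : Field F) (φ : F ≃+ J), Nat.card F = q ∧ φ 1 = A.one ∧
    ∀ a b : F, φ (a ^ 2 * b) = A.U (φ a) (φ b)

/-- The inverse `b⁻¹ = U(b)⁻¹ b` (meaningful if `U(b)` is bijective). -/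
noncomputable def inv (b : J) : J := Function.invFun (A.U b) b

/-- `w_b` as a word in the generators; `(true, a)` stands for `x_+(a)` and `(false, a)` for
`x_-(a)`. -/
noncomputable def wWord (b : J) : FreeGroup (Bool × J) :=
  FreeGroup.of (false, A.inv b) * FreeGroup.of (true, b) * FreeGroup.of (false, A.inv b)

/-- The relators of the Steinberg group:
`x_σ(a+b) = x_σ(a) x_σ(b)` and `w_b x_-(a) w_b⁻¹ = x_+(U(b)a)` for `b ≠ 0`. -/
def stRels : Set (FreeGroup (Bool × J)) :=
  {r | ∃ (σ : Bool) (a b : J), r = FreeGroup.of (σ, a + b) *
      (FreeGroup.of (σ, a) * FreeGroup.of (σ, b))⁻¹} ∪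
  {r | ∃ a b : J, b ≠ 0 ∧ r = A.wWord b * FreeGroup.of (false, a) * (A.wWord b)⁻¹ *
      (FreeGroup.of (true, A.U b a))⁻¹}

/-- The Steinberg group `St(J)`. -/
abbrev St : Type _ := PresentedGroup A.stRels

end QuadraticJordanAlgebra

/-- A group `G` is centrally closed if it is perfect and every central extension of it splits
(central extensions by groups in an arbitrary universe). -/
def IsCentrallyClosed.{u, v} (G : Type u) [Group G] : Prop :=
  commutator G = ⊤ ∧ ∀ (E : Type v) [Group E] (π : E →* G), Function.Surjective π →
    π.ker ≤ Subgroup.center E → ∃ s : G →* E, π.comp s = MonoidHom.id G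

end Pool.Agent.Helper4.Jordan
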