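import Pool.Agent.Helper4.Jordan.Weak

/-! Invariant alternating biadditive forms on division quadratic Jordan algebras vanish. -/

namespace Pool.Agent.Helper4.Jordan

open QuadraticMap Polynomial

namespace WQJ

variable {k : Type*} {J : Type*} [Field k] [AddCommGroup J] [Module k J] {A : WQJ k J}
variable {C : Type*} [AddCommGroup C]

/-- the polynomial `((s^2+2s-1)^2 - 4s^2)` with `s = p(1-p)`. -/
def DD {R : Type*} [CommRing R] (p : R) : R :=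
  ((p * (1 - p)) ^ 2 + 2 * (p * (1 - p)) - 1) ^ 2 - 4 * (p * (1 - p)) ^ 2

/-- alternating invariant biadditive maps -/
structure Inv (A : WQJ k J) (f : J →+ J →+ C) : Prop where
  alt : ∀ a, f a a = 0
  inv : ∀ b, b ≠ 0 → ∀ a a', f (A.U b a) (A.U b a') = f a a'

lemma Inv.swap {f : J →+ J →+ C} (hf : Inv A f) (a b : J) : f a b = - f b a := by
  have h := hf.alt (a + b)
  simp only [map_add, AddMonoidHom.add_apply, hf.alt, zero_add, add_zero] at h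
  exact eq_neg_of_add_eq_zero_right h

lemma Inv.poly {f : J →+ J →+ C} (hf : Inv A f) {y : J} {P : k[X]} (hP : A.ev y P ≠ 0)
    (Q R : k[X]) : f (A.ev y (P ^ 2 * Q)) (A.ev y (P ^ 2 * R)) = f (A.ev y Q) (A.ev y R) := by
  rw [← A.ev_U, ← A.ev_U]
  exact hf.inv _ hP _ _

lemma Inv.one {f : J →+ J →+ C} (hf : Inv A f) {y : J} {p : k[X]} (hp : A.ev y p ≠ 0)
    (hq : A.ev y (1 - p) ≠ 0) (Q R : k[X]) :
    2 • f (A.ev y Q) (A.ev y R) =
      f (A.ev y ((p * (1 - p)) * Q))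
        (A.ev y (((p * (1 - p)) ^ 2 + 2 * (p * (1 - p)) - 1) * R)) := by
  set q := 1 - p with hqdef
  set s := p * q with hs
  have e1 : s * Q = p ^ 2 * (s * Q) + q ^ 2 * (s * Q) + (s ^ 2 * Q + s ^ 2 * Q) := by
    rw [hs, hqdef]; ring
  have h1 : f (A.ev y (s * Q)) (A.ev y (s ^ 2 * R)) =
      f (A.ev y (s * Q)) (A.ev y (q ^ 2 * R)) + f (A.ev y (s * Q)) (A.ev y (p ^ 2 * R)) +
        (f (A.ev y Q) (A.ev y R) + f (A.ev y Q) (A.ev y R)) := by
    have i1 : f (A.ev y (p ^ 2 * (s * Q))) (A.ev y (s ^ 2 * R)) =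
        f (A.ev y (s * Q)) (A.ev y (q ^ 2 * R)) := by
      rw [← hf.poly hp (s * Q) (q ^ 2 * R)]
      congr 2; rw [hs]; ring
    have i2 : f (A.ev y (q ^ 2 * (s * Q))) (A.ev y (s ^ 2 * R)) =
        f (A.ev y (s * Q)) (A.ev y (p ^ 2 * R)) := by
      rw [← hf.poly hq (s * Q) (p ^ 2 * R)]
      congr 2; rw [hs]; ring
    have i3 : f (A.ev y (s ^ 2 * Q)) (A.ev y (s ^ 2 * R)) = f (A.ev y Q) (A.ev y R) := by
      rw [← hf.poly hq Q R, ← hf.poly hp (q ^ 2 * Q) (q ^ 2 * R),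
        show s ^ 2 * Q = p ^ 2 * (q ^ 2 * Q) by rw [hs]; ring,
        show s ^ 2 * R = p ^ 2 * (q ^ 2 * R) by rw [hs]; ring]
    conv_lhs => rw [e1]
    rw [map_add (A.ev y), map_add (A.ev y), map_add (A.ev y), map_add f, map_add f, map_add f,
      AddMonoidHom.add_apply, AddMonoidHom.add_apply, AddMonoidHom.add_apply, i1, i2, i3]
  have e2 : (s ^ 2 + 2 * s - 1) * R = s ^ 2 * R - q ^ 2 * R - p ^ 2 * R := by
    rw [hs, hqdef]; ring
  rw [e2, map_sub (A.ev y), map_sub (A.ev y), map_sub, map_sub, h1, two_nsmul]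
  abel

lemma Inv.two {f : J →+ J →+ C} (hf : Inv A f) {y : J} {p : k[X]} (hp : A.ev y p ≠ 0)
    (hq : A.ev y (1 - p) ≠ 0) (Q R : k[X]) :
    f (A.ev y ((p * (1 - p)) ^ 2 * Q)) (A.ev y (DD p * R)) = 0 := by
  have h1 := hf.one hp hq Q R
  have h2 := hf.one hp hq ((p * (1 - p)) * Q) (((p * (1 - p)) ^ 2 + 2 * (p * (1 - p)) - 1) * R)
  rw [← h1] at h2
  have h3 : f (A.ev y ((p * (1 - p)) ^ 2 * Q)) (A.ev y ((p * (1 - p)) ^ 2 * R)) =
      f (A.ev y Q) (A.ev y R) := by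
    rw [← hf.poly hq Q R, ← hf.poly hp ((1 - p) ^ 2 * Q) ((1 - p) ^ 2 * R),
      show (p * (1 - p)) ^ 2 * Q = p ^ 2 * ((1 - p) ^ 2 * Q) by ring,
      show (p * (1 - p)) ^ 2 * R = p ^ 2 * ((1 - p) ^ 2 * R) by ring]
  have e : DD p * R = ((p * (1 - p)) ^ 2 + 2 * (p * (1 - p)) - 1) *
      (((p * (1 - p)) ^ 2 + 2 * (p * (1 - p)) - 1) * R) - (4 : ℕ) • ((p * (1 - p)) ^ 2 * R) := by
    rw [DD, nsmul_eq_mul]; push_cast; ring
  have e' : (p * (1 - p)) ^ 2 * Q = (p * (1 - p)) * ((p * (1 - p)) * Q) := by ring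
  rw [e, map_sub (A.ev y), map_nsmul, map_sub, map_nsmul, h3, e', ← h2, smul_smul]
  norm_num

variable {f : J →+ J →+ C} (hf : Inv A f) (h : A.IsDiv) (he : A.e ≠ 0)

include hf h he in
/-- goodness criterion -/
lemma Inv.good {y : J} {p : k[X]} (hp : A.ev y p ≠ 0)
    (hq : A.ev y (1 - p) ≠ 0) (hD : A.ev y (DD p) ≠ 0) (Q R : k[X]) :
    f (A.ev y Q) (A.ev y R) = 0 := by
  have h1 := hf.two hp hq (DD p ^ 2 * Q) (DD p * ((p * (1 - p)) ^ 2 * R))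
  have h2 : A.ev y (p * (1 - p) * DD p) ≠ 0 := h.ne_mul he (h.ne_mul he hp hq) hD
  rw [← hf.poly h2 Q R, ← h1,
    show (p * (1 - p) * DD p) ^ 2 * Q = (p * (1 - p)) ^ 2 * (DD p ^ 2 * Q) by ring,
    show (p * (1 - p) * DD p) ^ 2 * R = DD p * (DD p * ((p * (1 - p)) ^ 2 * R)) by ring]

include hf h he in
lemma Inv.good' {y : J} {p : k[X]} (hp : A.ev y p ≠ 0)
    (hq : A.ev y (1 - p) ≠ 0) (hD : A.ev y (DD p) ≠ 0) : f A.e y = 0 := by
  have := hf.good h he hp hq hD 1 X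
  rwa [ev_one, ev_X] at this

include h he in
lemma ev_mul_eq_zero {y : J} {P : k[X]} (Q : k[X]) (hP : A.ev y P = 0) : A.ev y (P * Q) = 0 := by
  by_contra hne
  apply he
  apply (h _ hne).1
  rw [map_zero, ← A.ev_one y, ev_U]
  have : A.U (A.ev y P) (A.ev y (Q ^ 2)) = 0 := by rw [hP]; simp
  rw [ev_U] at this
  rw [← this]
  congr 1; ring

end WQJ

end Pool.Agent.Helper4.Jordan
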