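import Pool.Agent.Helper4.Jordan.Form

/-! Vanishing of invariant alternating forms: all characteristics. -/

namespace Pool.Agent.Helper4.Jordan

open QuadraticMap Polynomial

namespace WQJ

lemma DD_two {R : Type*} [CommRing R] (h : (2 : R) = 0) (p : R) :
    DD p * (p * (p + 1)) ^ 4 = (p ^ 4 - p) ^ 4 := by
  rw [DD]
  linear_combination ((-4) * p ^ 6 + (8) * p ^ 8 + (4) * p ^ 9 + (-8) * p ^ 10 + (4) * p ^ 11 +
    (8) * p ^ 12 + (-4) * p ^ 14) * h

lemma DD_three {R : Type*} [CommRing R] (h : (3 : R) = 0) (p : R) :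
    DD p * (p ^ 2 * (p - 1) ^ 2 * ((p ^ 2 - p - 1) * (p ^ 2 + 1) * (p ^ 2 + p - 1))) =
      (p ^ 9 - p) ^ 2 := by
  rw [DD]
  linear_combination ((-2) * p ^ 3 + (3) * p ^ 4 + (4) * p ^ 5 + (-17) * p ^ 6 + (18) * p ^ 7 +
    (2) * p ^ 8 + (-30) * p ^ 9 + (44) * p ^ 10 + (-30) * p ^ 11 + (2) * p ^ 12 + (18) * p ^ 13 +
    (-17) * p ^ 14 + (4) * p ^ 15 + (3) * p ^ 16 + (-2) * p ^ 17) * h

lemma DD_five {R : Type*} [CommRing R] (h : (5 : R) = 0) (p : R) :
    DD p = (p ^ 2 - p + 1) * (p - 2) ^ 2 * (p - 3) ^ 2 * (p - 4) ^ 2 := by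
  rw [DD]
  linear_combination ((-115) * p ^ 0 + (364) * p ^ 1 + (-586) * p ^ 2 + (576) * p ^ 3 +
    (-354) * p ^ 4 + (135) * p ^ 5 + (-30) * p ^ 6 + (3) * p ^ 7) * h

variable {k : Type*} {J : Type*} [Field k] [AddCommGroup J] [Module k J] {A : WQJ k J}
variable {Cc : Type*} [AddCommGroup Cc]
variable {f : J →+ J →+ Cc} (hf : Inv A f) (h : A.IsDiv) (he : A.e ≠ 0)

include hf he in
/-- characteristic different from 2, 3, 5. -/
lemma Inv.caseA (h2 : (2 : k) ≠ 0) (h3 : (3 : k) ≠ 0) (h5 : (5 : k) ≠ 0) (a b : J) :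
    f a b = 0 := by
  have hne : (2 : k) • A.e ≠ 0 := smul_ne_zero h2 he
  have key : ∀ a b, 15 • f a b = 0 := by
    intro a b
    have h1 := hf.inv _ hne a b
    have hU : ∀ a, A.U ((2 : k) • A.e) a = (4 : ℕ) • a := by
      intro a
      rw [QuadraticMap.map_smul, A.U_e, LinearMap.smul_apply, Module.End.one_apply]
      norm_num
      rw [← Nat.cast_smul_eq_nsmul k]
      norm_num
    rw [hU, hU, map_nsmul, map_nsmul, AddMonoidHom.nsmul_apply, smul_smul] at h1
    have h2 : (4 * 4) • f a b = 15 • f a b + f a b := by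
      rw [show 4 * 4 = 15 + 1 by norm_num, add_smul, one_smul]
    rw [h2] at h1
    exact add_eq_right.mp h1
  have h15 : (15 : k) ≠ 0 := by
    have : (15 : k) = 3 * 5 := by norm_num
    rw [this]; exact mul_ne_zero h3 h5
  have hb : b = 15 • ((15 : k)⁻¹ • b) := by
    rw [← Nat.cast_smul_eq_nsmul k, smul_smul]
    push_cast
    rw [mul_inv_cancel₀ h15, one_smul]
  rw [hb, map_nsmul, key]

include h he in
lemma ev_ne_of_mul {y : J} {P Q : k[X]} (hPQ : A.ev y (P * Q) ≠ 0) : A.ev y P ≠ 0 := by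
  intro h0
  exact hPQ (ev_mul_eq_zero h he Q h0)

include hf h he in
/-- characteristic 5. -/
lemma Inv.caseB (h5 : (5 : k) = 0) (y : J) : f A.e y = 0 := by
  have h5' : (5 : k[X]) = 0 := by
    rw [← map_ofNat (C : k →+* k[X]) 5, h5, map_zero]
  by_cases hm : ∃ n : ℕ, y = n • A.e
  · obtain ⟨n, rfl⟩ := hm
    rw [map_nsmul, hf.alt, smul_zero]
  have hn : ∀ n : ℕ, A.ev y (X - (n : k[X])) ≠ 0 := by
    intro n h0
    apply hm
    refine ⟨n, ?_⟩
    rw [map_sub, ev_X] at h0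
    have : A.ev y (n : k[X]) = n • A.e := by
      rw [← nsmul_one, map_nsmul, ev_one]
    rw [this] at h0
    exact sub_eq_zero.mp h0
  have g0 : A.ev y X ≠ 0 := by have := hn 0; simpa using this
  have g1 : A.ev y (X - 1) ≠ 0 := by have := hn 1; simpa using this
  have g2 : A.ev y (X - 2) ≠ 0 := by have := hn 2; simpa using this
  have g3 : A.ev y (X - 3) ≠ 0 := by have := hn 3; simpa using this
  have g4 : A.ev y (X - 4) ≠ 0 := by have := hn 4; simpa using this
  by_cases hq : A.ev y (X ^ 2 - X + 1) = 0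
  · -- use p = X + 1
    have e0 : (X + 1 : k[X]) = X - 4 := by linear_combination h5'
    have e1 : (1 - (X + 1) : k[X]) = -X := by ring
    refine hf.good' h he (p := X + 1) ?_ ?_ ?_
    · rw [e0]; exact g4
    · rw [e1, map_neg, neg_ne_zero]; exact g0
    · have e2 : DD (X + 1 : k[X]) = (X ^ 2 + X + 1) * (X - 1) ^ 2 * (X - 2) ^ 2 * (X - 3) ^ 2 := by
        rw [DD_five h5']; ring
      rw [e2]
      refine h.ne_mul he (h.ne_mul he (h.ne_mul he ?_ (h.ne_pow he g1 2)) (h.ne_pow he g2 2))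
        (h.ne_pow he g3 2)
      have e3 : (X ^ 2 + X + 1 : k[X]) = (X ^ 2 - X + 1) + C (2 : k) * X := by
        have : (C (2 : k) : k[X]) = 2 := map_ofNat C 2
        rw [this]; ring
      rw [e3, map_add, hq, zero_add]
      refine h.ne_mul he ?_ g0
      rw [ev_C]
      refine smul_ne_zero ?_ he
      intro h2
      have : (1 : k) = 0 := by linear_combination h5 - 2 * h2
      exact one_ne_zero this
  · refine hf.good' h he (p := X) g0 ?_ ?_
    · have e1 : (1 - X : k[X]) = -(X - 1) := by ring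
      rw [e1, map_neg, neg_ne_zero]; exact g1
    · rw [DD_five h5']
      exact h.ne_mul he (h.ne_mul he (h.ne_mul he hq (h.ne_pow he g2 2)) (h.ne_pow he g3 2))
        (h.ne_pow he g4 2)

include hf h he in
/-- if `p^q - p` does not vanish at `y` then the form vanishes on `k[y]`. -/
lemma Inv.frob {q m : ℕ} (hq : 2 ≤ q) {y : J} (p : k[X])
    (hW : ∃ W : k[X], DD p * W = (p ^ q - p) ^ m) (hy : A.ev y (p ^ q - p) ≠ 0) :
    f A.e y = 0 := by
  obtain ⟨W, hW⟩ := hW
  refine hf.good' h he (p := p) ?_ ?_ ?_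
  · obtain ⟨q, rfl⟩ := Nat.exists_eq_add_of_le' hq
    have : p ^ (q + 2) - p = p * (p ^ (q + 1) - 1) := by ring
    rw [this] at hy
    exact ev_ne_of_mul h he hy
  · have h1 : (p - 1) ∣ (p ^ q - p) := by
      have h2 : (p - 1) ∣ (p ^ q - 1 ^ q) := sub_dvd_pow_sub_pow p 1 q
      have h3 : p ^ q - p = (p ^ q - 1 ^ q) - (p - 1) := by rw [one_pow]; ring
      rw [h3]
      exact dvd_sub h2 (dvd_refl _)
    obtain ⟨V, hV⟩ := h1
    have h2 : p ^ q - p = (1 - p) * (-V) := by rw [hV]; ring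
    rw [h2] at hy
    exact ev_ne_of_mul h he hy
  · have h1 : A.ev y ((p ^ q - p) ^ m) ≠ 0 := h.ne_pow he hy m
    rw [← hW] at h1
    exact ev_ne_of_mul h he h1

include hf h he in
lemma Inv.caseCD {q m : ℕ} (hq : 2 ≤ q)
    (hW : ∀ p : k[X], ∃ W : k[X], DD p * W = (p ^ q - p) ^ m)
    (hk : (∀ t : k, t ^ q = t) → (X ^ q - X : k[X]) ∈ Set.range (fun s : Finset k => ∏ t ∈ s, (X - C t)))
    (hz : (∀ t : k, t ^ q = t) → ∃ z : J, ∀ t : k, z ≠ t • A.e) (y : J) : f A.e y = 0 := by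
  by_cases ht : ∀ t : k, t ^ q = t
  · obtain ⟨s, hs⟩ := hk ht
    obtain ⟨z, hz⟩ := hz ht
    have hgood : ∀ z : J, (∀ t : k, z ≠ t • A.e) → f A.e z = 0 := by
      intro z hz
      refine hf.frob h he hq X (hW X) ?_
      intro h0
      rw [← hs] at h0
      obtain ⟨t, _, ht0⟩ := h.prod_eq_zero he s _ h0
      rw [map_sub, ev_X, ev_C, sub_eq_zero] at ht0
      exact hz t ht0
    by_cases hy : ∀ t : k, y ≠ t • A.e
    · exact hgood y hy
    · push Not at hy
      obtain ⟨t, rfl⟩ := hy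
      have h1 := hgood z hz
      have h2 := hgood (t • A.e + z) (by
        intro t' ht'
        apply hz (t' - t)
        rw [sub_smul, ← ht']; abel)
      rw [map_add, h1, add_zero] at h2
      exact h2
  · push Not at ht
    obtain ⟨t, ht⟩ := ht
    refine hf.frob h he hq (C t) (hW _) ?_
    rw [← C_pow, ← C_sub, ev_C]
    exact smul_ne_zero (sub_ne_zero.mpr ht) he

/-- if all `t : k` satisfy `t ^ q = t` and `k` has at least `q` elements then `X^q - X` splits. -/
lemma frob_prod {q : ℕ} (hq : 2 ≤ q) (ht : ∀ t : k, t ^ q = t)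
    (hcard : ∀ s : Finset k, (∀ t, t ∈ s) → q ≤ s.card) :
    (X ^ q - X : k[X]) ∈ Set.range (fun s : Finset k => ∏ t ∈ s, (X - C t)) := by
  classical
  have hdeg : (X ^ q - X : k[X]).natDegree = q := FiniteField.X_pow_card_sub_X_natDegree_eq k (by omega)
  have hne : (X ^ q - X : k[X]) ≠ 0 := FiniteField.X_pow_card_sub_X_ne_zero k (by omega)
  have hmonic : (X ^ q - X : k[X]).Monic := by
    apply Polynomial.monic_X_pow_sub
    rw [degree_X]
    exact_mod_cast hq
  let s := (X ^ q - X : k[X]).roots.toFinset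
  have hs : ∀ t, t ∈ s := by
    intro t
    rw [Multiset.mem_toFinset, mem_roots hne, IsRoot.def]
    simp [ht t]
  have h1 : q ≤ s.card := hcard s hs
  have h2 : s.card ≤ Multiset.card (X ^ q - X : k[X]).roots := Multiset.toFinset_card_le _
  have h3 : Multiset.card (X ^ q - X : k[X]).roots ≤ q := by
    have := card_roots' (X ^ q - X : k[X])
    rwa [hdeg] at this
  have h4 : Multiset.card (X ^ q - X : k[X]).roots = q := by omega
  have h5 : s.card = Multiset.card (X ^ q - X : k[X]).roots := by omega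
  have h6 : (X ^ q - X : k[X]).roots.Nodup := Multiset.toFinset_card_eq_card_iff_nodup.mp h5
  refine ⟨s, ?_⟩
  have h7 := prod_multiset_X_sub_C_of_monic_of_roots_card_eq hmonic (by rw [hdeg]; exact h4)
  change ∏ t ∈ s, (X - C t) = _
  rw [Finset.prod, Multiset.toFinset_val, Multiset.dedup_eq_self.mpr h6]
  exact h7

end WQJ

end Pool.Agent.Helper4.Jordan
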