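import Pool.Agent.Helper4.Jordan.Scalar

/-!
# Central closedness of the Steinberg group of a division Jordan algebra with at least 4 scalars

For every division (quadratic) Jordan algebra `J` over a commutative ring `R` such that `R·1_J`
has at least four elements, and which is not a field with `4` or `9` elements, the Steinberg
group `St(J)` is centrally closed. No other assumption is made: `J` may have any characteristic,
any dimension and any type. The hypothesis on `R·1_J ⊇ ℤ·1_J` holds automatically whenever
`2·1_J ≠ 0` and `3·1_J ≠ 0` (then `0, 1, 2, 3` are different in `J`), and (taking for `R` the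
centroid of `J`) it only excludes the algebras whose centroid is `𝔽₂` or `𝔽₃`.

All definitions (quadratic Jordan algebras, division, isomorphism with `𝔽_q`, the Steinberg
group by generators and relations, centrally closed groups) are in
`Pool/Agent/Helper4/Jordan/Defs.lean`.
-/

namespace Pool.Agent.Results.MP_8712e2_al.FourScalars

open Pool.Agent.Helper4.Jordan

universe u v w

/-- Let `J` be a division Jordan algebra over the commutative ring `R`, not isomorphic to `𝔽_q`
with `q ∈ {2, 3, 4, 9}`, such that `R·1_J` has at least four elements. Then `St(J)` is centrally
closed. -/
theorem result {R : Type u} {J : Type v} [CommRing R] [AddCommGroup J] [Module R J]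
    (A : QuadraticJordanAlgebra R J) (hdiv : A.IsDivision)
    (hJ : ∀ q ∈ ({2, 3, 4, 9} : Set ℕ), ¬ A.IsoFq q)
    (hR : 4 ≤ (Set.range fun r : R => r • A.one).encard) :
    IsCentrallyClosed.{v, w} A.St :=
  A.centrallyClosed hdiv hR (hJ 4 (by simp)) (hJ 9 (by simp))

end Pool.Agent.Results.MP_8712e2_al.FourScalars
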