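import Pool.Agent.Helper4.Jordan.Defs

/-! The quadratic Jordan algebra `A⁺` of an associative algebra `A`. -/

namespace Pool.Agent.Helper4.Jordan

open QuadraticMap

section
variable {R D : Type*} [CommRing R] [Ring D] [Algebra R D]

/-- the map `b ↦ (a ↦ b a b)` as a quadratic map. -/
def plusU (R D : Type*) [CommRing R] [Ring D] [Algebra R D] :
    QuadraticMap R D (Module.End R D) where
  toFun b := LinearMap.mulLeft R b * LinearMap.mulRight R b
  toFun_smul t b := by
    ext a
    simp [mul_smul]
  exists_companion' := by
    refine ⟨LinearMap.mk₂ R (fun b c => LinearMap.mulLeft R b * LinearMap.mulRight R c +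
      LinearMap.mulLeft R c * LinearMap.mulRight R b) ?_ ?_ ?_ ?_, ?_⟩
    · intro b b' c; ext a; simp; noncomm_ring
    · intro t b c; ext a; simp
    · intro b c c'; ext a; simp; noncomm_ring
    · intro t b c; ext a; simp
    · intro b c; ext a; simp; noncomm_ring

lemma plusU_apply (b a : D) : plusU R D b a = b * (a * b) := rfl

lemma polar_plusU (b c a : D) : polar (plusU R D) b c a = b * (a * c) + c * (a * b) := by
  rw [polar, LinearMap.sub_apply, LinearMap.sub_apply, plusU_apply, plusU_apply, plusU_apply]
  noncomm_ring

/-- The quadratic Jordan algebra `A⁺` of an associative unital `R`-algebra `A`: `U(b)a = bab`. -/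
def plus (R D : Type*) [CommRing R] [Ring D] [Algebra R D] : QuadraticJordanAlgebra R D where
  one := 1
  U := plusU R D
  U_one := by ext a; simp [plusU_apply]
  QJ2 a b c := by
    simp only [triple, polar_plusU, plusU_apply]; noncomm_ring
  QJ2_lin a d b c := by
    simp only [triple, polar_plusU, plusU_apply]; noncomm_ring
  QJ3 a b := by
    ext c
    simp only [Module.End.mul_apply, plusU_apply]; noncomm_ring
  QJ3_lin₁ a d b := by
    ext c
    simp only [Module.End.mul_apply, LinearMap.add_apply, polar_plusU, plusU_apply]; noncomm_ring
  QJ3_lin₂ a d b := by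
    ext c
    simp only [Module.End.mul_apply, LinearMap.add_apply, polar_plusU, plusU_apply]; noncomm_ring

end

end Pool.Agent.Helper4.Jordan
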