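import Pool.Agent.Helper4.Jordan.PlusDef
import Pool.Agent.Helper4.Jordan.Scalar

/-! Invariant alternating forms on noncommutative division rings vanish. -/

namespace Pool.Agent.Helper4.Jordan

open QuadraticMap

section fin
variable {D : Type*} [DivisionRing D]

/-- a division ring with a quadratic element with finite centralizer is finite -/
lemma finite_of_centralizer {y t n : D} (ht : ∀ a, t * a = a * t) (hn : ∀ a, n * a = a * n)
    (hy : y * y = t * y - n) (hC : {z : D | z * y = y * z}.Finite) : Finite D := by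
  have hC' : {z : D | z * (t - y) = (t - y) * z}.Finite := by
    convert hC using 3 with z
    rw [mul_sub, sub_mul, ht z, sub_right_inj]
  -- the twisted centralizer is finite
  have hD1 : {b : D | b * y = (t - y) * b}.Finite := by
    by_cases h0 : ∀ b ∈ {b : D | b * y = (t - y) * b}, b = 0
    · exact (Set.finite_singleton (0 : D)).subset h0
    · push Not at h0
      obtain ⟨b₀, hb₀, hne⟩ := h0
      have hb₀' : b₀⁻¹ * (t - y) = y * b₀⁻¹ := by
        have h1 : b₀ * y = (t - y) * b₀ := hb₀
        calc b₀⁻¹ * (t - y) = b₀⁻¹ * ((t - y) * b₀) * b₀⁻¹ := by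
              rw [mul_assoc, mul_assoc, mul_inv_cancel₀ hne, mul_one]
          _ = b₀⁻¹ * (b₀ * y) * b₀⁻¹ := by rw [h1]
          _ = _ := by rw [← mul_assoc, inv_mul_cancel₀ hne, one_mul]
      refine (hC'.image (fun c => c * b₀)).subset ?_
      intro b hb
      refine ⟨b * b₀⁻¹, ?_, ?_⟩
      · show b * b₀⁻¹ * (t - y) = (t - y) * (b * b₀⁻¹)
        rw [mul_assoc, hb₀', ← mul_assoc, (hb : b * y = (t - y) * b), mul_assoc]
      · show b * b₀⁻¹ * b₀ = b
        rw [mul_assoc, inv_mul_cancel₀ hne, mul_one]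
  -- the map `a ↦ a y - y a`
  have hδ : ∀ a : D, (a * y - y * a) ∈ {b : D | b * y = (t - y) * b} := by
    intro a
    show (a * y - y * a) * y = (t - y) * (a * y - y * a)
    have h1 : (a * y - y * a) * y = a * (y * y) - y * a * y := by noncomm_ring
    have h2 : (t - y) * (a * y - y * a) = t * a * y - t * y * a - y * a * y + y * y * a := by
      noncomm_ring
    rw [h1, h2, hy, mul_sub, sub_mul, ← hn, ← mul_assoc, ← ht]
    abel
  have hfib : ∀ d : D, {a : D | a * y - y * a = d}.Finite := by
    intro d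
    by_cases h0 : ∃ a₀, a₀ * y - y * a₀ = d
    · obtain ⟨a₀, ha₀⟩ := h0
      refine (hC.image (fun c => a₀ + c)).subset ?_
      intro a ha
      refine ⟨a - a₀, ?_, by simp⟩
      show (a - a₀) * y = y * (a - a₀)
      have h1 : a * y - y * a = d := ha
      rw [← sub_eq_zero]
      calc (a - a₀) * y - y * (a - a₀) = (a * y - y * a) - (a₀ * y - y * a₀) := by noncomm_ring
        _ = 0 := by rw [h1, ha₀, sub_self]
    · push Not at h0
      convert Set.finite_empty
      ext a
      simp only [Set.mem_ofPred_eq, Set.mem_empty_iff_false, iff_false]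
      exact h0 a
  have huniv : (Set.univ : Set D) = ⋃ d ∈ {b : D | b * y = (t - y) * b},
      {a : D | a * y - y * a = d} := by
    ext a
    simp only [Set.mem_univ, Set.mem_iUnion, true_iff]
    exact ⟨_, hδ a, rfl⟩
  have : (Set.univ : Set D).Finite := by
    rw [huniv]
    exact hD1.biUnion (fun d _ => hfib d)
  exact Set.finite_univ_iff.mp this

lemma not_finite (hnc : ∃ a b : D, a * b ≠ b * a) : ¬ Finite D := by
  intro hfin
  obtain ⟨a, b, hab⟩ := hnc
  apply hab
  let F : Field D := littleWedderburn D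
  exact F.mul_comm a b

/-- characteristic two -/
lemma exists_good2 (hnc : ∃ a b : D, a * b ≠ b * a) (h2 : (2 : D) = 0) {y : D}
    (hy0 : y ≠ 0) (hy1 : y ≠ 1) (hy : y ^ 4 = y) : ∃ z : D, z * y = y * z ∧ z ^ 4 ≠ z := by
  by_contra hcon
  push Not at hcon
  have key : ∀ z : D, z ^ 4 = z → z = 0 ∨ z = 1 ∨ z * z + z + 1 = 0 := by
    intro z hz
    have h : z * ((z - 1) * (z * z + z + 1)) = 0 := by
      have : z * ((z - 1) * (z * z + z + 1)) = z ^ 4 - z := by noncomm_ring
      rw [this, hz, sub_self]
    rcases mul_eq_zero.mp h with h | h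
    · exact Or.inl h
    · rcases mul_eq_zero.mp h with h | h
      · exact Or.inr (Or.inl (sub_eq_zero.mp h))
      · exact Or.inr (Or.inr h)
  have hy2 : y * y + y + 1 = 0 := by
    rcases key y hy with h | h | h
    · exact absurd h hy0
    · exact absurd h hy1
    · exact h
  apply not_finite hnc
  have htwo : ∀ a : D, a + a = 0 := by intro a; rw [← two_mul, h2, zero_mul]
  refine finite_of_centralizer (y := y) (t := 1) (n := -1) (by simp) (by simp) ?_ ?_
  · have h3 := htwo y
    have h4 := htwo 1
    calc y * y = (y * y + y + 1) - (y + y) - (1 + 1) + (1 * y - (-1)) := by noncomm_ring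
      _ = _ := by rw [hy2, h3, h4]; simp
  · refine (Set.toFinite ({0, 1, y, y + 1} : Set D)).subset ?_
    intro z hz
    have hz' : z * y = y * z := hz
    simp only [Set.mem_insert_iff, Set.mem_singleton_iff]
    rcases key z (hcon z hz') with h | h | h
    · exact Or.inl h
    · exact Or.inr (Or.inl h)
    · right; right
      have h5 : (z + y) * (z + y + 1) = 0 := by
        calc (z + y) * (z + y + 1) = (z * z + z + 1) + (y * y + y + 1) + (z * y + y * z) - (1 + 1) := by
              noncomm_ring
          _ = 0 := by rw [h, hy2, hz', htwo (y * z), htwo 1]; simp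
      rcases mul_eq_zero.mp h5 with h | h
      · left
        rw [← sub_eq_zero, sub_eq_add_neg, ← h]
        congr 1
        rw [neg_eq_iff_add_eq_zero, htwo]
      · right
        rw [← sub_eq_zero, sub_eq_add_neg, ← h, add_assoc]
        congr 1
        rw [neg_eq_iff_add_eq_zero, htwo]

/-- characteristic three -/
lemma exists_good3 (hnc : ∃ a b : D, a * b ≠ b * a) (h3 : (3 : D) = 0) {y : D}
    (hy : y * y = -1) : ∃ z : D, z * y = y * z ∧ z ^ 9 ≠ z := by
  by_contra hcon
  push Not at hcon
  have hthree : ∀ a : D, a + a + a = 0 := by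
    intro a
    have : a + a + a = 3 * a := by noncomm_ring
    rw [this, h3, zero_mul]
  have key : ∀ z : D, z ^ 9 = z → z = 0 ∨ z = 1 ∨ z = -1 ∨ z * z = -1 ∨
      (z - 1) * (z - 1) = -1 ∨ (z + 1) * (z + 1) = -1 := by
    intro z hz
    have h : z * ((z - 1) * ((z + 1) * ((z * z + 1) * (((z - 1) * (z - 1) + 1) *
        ((z + 1) * (z + 1) + 1))))) = 0 := by
      have : z * ((z - 1) * ((z + 1) * ((z * z + 1) * (((z - 1) * (z - 1) + 1) *
        ((z + 1) * (z + 1) + 1))))) = z ^ 9 - z + 3 * (z ^ 5 - z) := by noncomm_ring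
      rw [this, hz, h3, sub_self, zero_mul, add_zero]
    rcases mul_eq_zero.mp h with h | h
    · exact Or.inl h
    rcases mul_eq_zero.mp h with h | h
    · exact Or.inr (Or.inl (sub_eq_zero.mp h))
    rcases mul_eq_zero.mp h with h | h
    · exact Or.inr (Or.inr (Or.inl (eq_neg_of_add_eq_zero_left h)))
    rcases mul_eq_zero.mp h with h | h
    · exact Or.inr (Or.inr (Or.inr (Or.inl (eq_neg_of_add_eq_zero_left h))))
    rcases mul_eq_zero.mp h with h | h
    · exact Or.inr (Or.inr (Or.inr (Or.inr (Or.inl (eq_neg_of_add_eq_zero_left h)))))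
    · exact Or.inr (Or.inr (Or.inr (Or.inr (Or.inr (eq_neg_of_add_eq_zero_left h)))))
  apply not_finite hnc
  refine finite_of_centralizer (y := y) (t := 0) (n := 1) (by simp) (by simp) (by rw [hy]; simp) ?_
  refine (Set.toFinite ({0, 1, -1, y, -y, 1 + y, 1 - y, -1 + y, -1 - y} : Set D)).subset ?_
  intro z hz
  have hz' : z * y = y * z := hz
  have hroot : ∀ c : D, c * y = y * c → c * c = -1 → c = y ∨ c = -y := by
    intro c hc hc2
    have h5 : (c - y) * (c + y) = 0 := by
      calc (c - y) * (c + y) = c * c - y * y + (c * y - y * c) := by noncomm_ring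
        _ = 0 := by rw [hc, hc2, hy]; simp
    rcases mul_eq_zero.mp h5 with h | h
    · exact Or.inl (sub_eq_zero.mp h)
    · exact Or.inr (eq_neg_of_add_eq_zero_left h)
  simp only [Set.mem_insert_iff, Set.mem_singleton_iff]
  rcases key z (hcon z hz') with h | h | h | h | h | h
  · tauto
  · tauto
  · tauto
  · rcases hroot z hz' h with h | h <;> tauto
  · rcases hroot (z - 1) (by rw [sub_mul, mul_sub, hz']; simp) h with h | h
    · have : z = 1 + y := by rw [← h]; abel
      tauto
    · have : z = 1 - y := by rw [sub_eq_add_neg, ← h]; abel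
      tauto
  · rcases hroot (z + 1) (by rw [add_mul, mul_add, hz']; simp) h with h | h
    · have : z = -1 + y := by rw [← h]; abel
      tauto
    · have : z = -1 - y := by rw [sub_eq_add_neg, ← h]; abel
      tauto

end fin

section forms

variable {D : Type*} [DivisionRing D] {C : Type*} [AddCommGroup C]

/-- forms invariant under all `U(b)` of `D⁺`. -/
structure PInv (f : D →+ D →+ C) : Prop where
  alt : ∀ a, f a a = 0
  inv : ∀ b, b ≠ 0 → ∀ a a', f (b * (a * b)) (b * (a' * b)) = f a a'

lemma PInv.comm {f : D →+ D →+ C} (hf : PInv f) {b c : D} (hb : b ≠ 0) (hc : c ≠ 0) (a a' : D) :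
    f (a * (b * c * b⁻¹ * c⁻¹)) (a' * (b * c * b⁻¹ * c⁻¹)) = f a a' := by
  have key : ∀ a : D, (c * b) * ((a * (b * c * b⁻¹ * c⁻¹)) * (c * b)) =
      c * ((b * (a * b)) * c) := by
    intro a
    have h1 : b * c * b⁻¹ * c⁻¹ * (c * b) = b * c := by
      rw [mul_assoc (b * c * b⁻¹), ← mul_assoc c⁻¹, inv_mul_cancel₀ hc, one_mul,
        mul_assoc (b * c), inv_mul_cancel₀ hb, mul_one]
    rw [mul_assoc a, h1]
    noncomm_ring
  rw [← hf.inv (c * b) (mul_ne_zero hc hb), key, key, hf.inv c hc, hf.inv b hb]

lemma PInv.shift {f : D →+ D →+ C} (hf : PInv f) {x : D} (hx : x ≠ 0) :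
    PInv (D := D) (C := C) ((AddMonoidHom.compl₂ f (AddMonoidHom.mulRight x)).comp
      (AddMonoidHom.mulRight x)) where
  alt a := hf.alt _
  inv b hb a a' := by
    show f (b * (a * b) * x) (b * (a' * b) * x) = f (a * x) (a' * x)
    have key : ∀ a : D, b * (a * b) * x = (b * ((a * x) * b)) * (b⁻¹ * x⁻¹ * b⁻¹⁻¹ * x⁻¹⁻¹) := by
      intro a
      rw [inv_inv, inv_inv]
      calc b * (a * b) * x = b * (a * (x * (b * b⁻¹) * x⁻¹) * b) * x := by
            rw [mul_inv_cancel₀ hb, mul_one, mul_inv_cancel₀ hx, mul_one]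
        _ = _ := by simp only [mul_assoc]
    rw [key, key, hf.comm (inv_ne_zero hb) (inv_ne_zero hx), hf.inv b hb]

/-- the weak structure on `D⁺` -/
def plusW (k D : Type*) [Field k] [DivisionRing D] [Algebra k D] : WQJ k D where
  e := (plus k D).one
  U := (plus k D).U
  U_e := (plus k D).U_one
  QJ2 := (plus k D).QJ2
  QJ3 := (plus k D).QJ3

lemma plus_U {R : Type*} [CommRing R] [Algebra R D] (b a : D) : (plus R D).U b a = b * (a * b) := rfl

lemma plusW_U {k : Type*} [Field k] [Algebra k D] (b a : D) : (plusW k D).U b a = b * (a * b) := rfl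

lemma plusW_pw {k : Type*} [Field k] [Algebra k D] (y : D) : ∀ n, (plusW k D).pw y n = y ^ n
  | 0 => by rw [WQJ.pw_zero, pow_zero]; rfl
  | 1 => by rw [WQJ.pw_one, pow_one]
  | n + 2 => by
    rw [WQJ.pw_two, plusW_pw y n, plusW_U, ← pow_succ, ← pow_succ']

lemma U_bij {b : D} (hb : b ≠ 0) : Function.Bijective (fun a : D => b * (a * b)) := by
  constructor
  · intro a a' h
    exact mul_right_cancel₀ hb (mul_left_cancel₀ hb h)
  · intro a
    refine ⟨b⁻¹ * a * b⁻¹, ?_⟩
    show b * (b⁻¹ * a * b⁻¹ * b) = a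
    rw [inv_mul_cancel_right₀ hb, mul_inv_cancel_left₀ hb]

lemma plusW_div (k : Type*) [Field k] [Algebra k D] : (plusW k D).IsDiv := fun _ hb => U_bij hb

lemma plus_div (R : Type*) [CommRing R] [Algebra R D] : (plus R D).IsDivision :=
  ⟨one_ne_zero, fun _ hb => U_bij hb⟩

lemma four_le (h2 : (2 : D) ≠ 0) (h3 : (3 : D) ≠ 0) :
    4 ≤ (Set.range fun r : ℤ => r • (plus ℤ D).one).encard := by
  classical
  have hsub : (({0, 1, 2, 3} : Finset D) : Set D) ⊆ Set.range fun r : ℤ => r • (plus ℤ D).one := by
    intro a ha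
    simp only [Finset.coe_insert, Finset.coe_singleton, Set.mem_insert_iff,
      Set.mem_singleton_iff] at ha
    rcases ha with rfl | rfl | rfl | rfl
    · exact ⟨0, by simp⟩
    · exact ⟨1, by simp [plus]⟩
    · exact ⟨2, by simp [plus]⟩
    · exact ⟨3, by simp [plus]⟩
  have hcard : ({0, 1, 2, 3} : Finset D).card = 4 := by
    have a1 : (0 : D) ≠ 1 := zero_ne_one
    have a2 : (1 : D) ≠ 2 := by
      intro h; apply a1
      have : (2 : D) = 1 + 1 := by norm_num
      rw [this] at h; exact (left_eq_add.mp h).symm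
    have a3 : (1 : D) ≠ 3 := by
      intro h; apply h2
      have : (3 : D) = 1 + 2 := by norm_num
      rw [this] at h; exact (left_eq_add.mp h)
    have a4 : (2 : D) ≠ 3 := by
      intro h; apply a1
      have : (3 : D) = 2 + 1 := by norm_num
      rw [this] at h; exact (left_eq_add.mp h).symm
    rw [Finset.card_insert_of_notMem, Finset.card_insert_of_notMem, Finset.card_insert_of_notMem,
      Finset.card_singleton]
    · simpa using a4
    · simp only [Finset.mem_insert, Finset.mem_singleton, not_or]; exact ⟨a2, a3⟩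
    · simp only [Finset.mem_insert, Finset.mem_singleton, not_or]
      exact ⟨a1, h2.symm, h3.symm⟩
  have h := Set.encard_le_encard hsub
  rw [Set.encard_coe_eq_coe_finsetCard, hcard] at h
  exact_mod_cast h

lemma PInv.frob {f : D →+ D →+ C} (hf : PInv f) (p q m : ℕ) [Fact p.Prime] (hp : (p : D) = 0)
    (hq : 2 ≤ q)
    (hW : ∃ W : Polynomial (ZMod p), WQJ.DD Polynomial.X * W =
      (Polynomial.X ^ q - Polynomial.X : Polynomial (ZMod p)) ^ m) {y : D} (hy : y ^ q ≠ y) :
    f 1 y = 0 := by
  have hchar : CharP D p := (CharP.charP_iff_prime_eq_zero Fact.out).mpr hp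
  let _ : Algebra (ZMod p) D := ZMod.algebra D p
  have hInv : WQJ.Inv (plusW (ZMod p) D) f := ⟨hf.alt, hf.inv⟩
  refine hInv.frob (plusW_div _) one_ne_zero hq (Polynomial.X) hW ?_
  rw [map_sub, WQJ.ev_X, Polynomial.X_pow_eq_monomial, WQJ.ev_monomial, one_smul, plusW_pw]
  exact sub_ne_zero.mpr hy

/-- vanishing at `1` -/
lemma PInv.one_eq_zero {f : D →+ D →+ C} (hf : PInv f) (hnc : ∃ a b : D, a * b ≠ b * a) (y : D) :
    f 1 y = 0 := by
  by_cases h2 : (2 : D) = 0
  · have hgood : ∀ y : D, y ^ 4 ≠ y → f 1 y = 0 := by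
      intro y hy
      refine hf.frob 2 4 4 (by exact_mod_cast h2) (by norm_num) ?_ hy
      exact ⟨_, WQJ.DD_two (by
        rw [← map_ofNat (Polynomial.C : ZMod 2 →+* Polynomial (ZMod 2)) 2]
        have : (2 : ZMod 2) = 0 := by decide
        rw [this, map_zero]) _⟩
    by_cases hy : y ^ 4 = y
    · by_cases hy0 : y = 0
      · rw [hy0, map_zero]
      by_cases hy1 : y = 1
      · rw [hy1, hf.alt]
      obtain ⟨z, hz, hz4⟩ := exists_good2 hnc h2 hy0 hy1 hy
      have h1 := hgood z hz4
      have hchar : CharP D 2 := (CharP.charP_iff_prime_eq_zero Nat.prime_two).mpr (by exact_mod_cast h2)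
      have h3 := hgood (z + y) (by
        intro h4
        apply hz4
        have h5 : (z + y) ^ 4 = z ^ 4 + y ^ 4 := by
          have := add_pow_char_pow_of_commute (R := D) 2 2 (x := z) (y := y) hz
          norm_num at this
          exact this
        rw [h5, hy] at h4
        exact add_right_cancel h4)
      rw [map_add, h1, zero_add] at h3
      exact h3
    · exact hgood y hy
  by_cases h3 : (3 : D) = 0
  · have hchar : CharP D 3 := (CharP.charP_iff_prime_eq_zero Nat.prime_three).mpr (by exact_mod_cast h3)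
    have hgood : ∀ y : D, y ^ 9 ≠ y → f 1 y = 0 := by
      intro y hy
      refine hf.frob 3 9 2 (by exact_mod_cast h3) (by norm_num) ?_ hy
      exact ⟨_, WQJ.DD_three (by
        rw [← map_ofNat (Polynomial.C : ZMod 3 →+* Polynomial (ZMod 3)) 3]
        have : (3 : ZMod 3) = 0 := by decide
        rw [this, map_zero]) _⟩
    have hi : ∀ i : D, i * i = -1 → f 1 i = 0 := by
      intro i hi
      obtain ⟨z, hz, hz9⟩ := exists_good3 hnc h3 hi
      have h1 := hgood z hz9
      have h5 := hgood (z + i) (by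
        intro h4
        apply hz9
        have h5 : (z + i) ^ 9 = z ^ 9 + i ^ 9 := by
          have := add_pow_char_pow_of_commute (R := D) 3 2 (x := z) (y := i) hz
          norm_num at this
          exact this
        have h6 : i ^ 9 = i := by
          have : i ^ 9 = (i * i) * (i * i) * (i * i) * (i * i) * i := by noncomm_ring
          rw [this, hi]; simp
        rw [h5, h6] at h4
        exact add_right_cancel h4)
      rw [map_add, h1, zero_add] at h5
      exact h5
    by_cases hy : y ^ 9 = y
    · have h : y * ((y - 1) * ((y + 1) * ((y * y + 1) * (((y - 1) * (y - 1) + 1) *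
          ((y + 1) * (y + 1) + 1))))) = 0 := by
        have : y * ((y - 1) * ((y + 1) * ((y * y + 1) * (((y - 1) * (y - 1) + 1) *
          ((y + 1) * (y + 1) + 1))))) = y ^ 9 - y + 3 * (y ^ 5 - y) := by noncomm_ring
        rw [this, hy, h3, sub_self, zero_mul, add_zero]
      rcases mul_eq_zero.mp h with h | h
      · rw [h, map_zero]
      rcases mul_eq_zero.mp h with h | h
      · rw [sub_eq_zero.mp h, hf.alt]
      rcases mul_eq_zero.mp h with h | h
      · rw [eq_neg_of_add_eq_zero_left h, map_neg, hf.alt, neg_zero]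
      rcases mul_eq_zero.mp h with h | h
      · exact hi y (eq_neg_of_add_eq_zero_left h)
      rcases mul_eq_zero.mp h with h | h
      · have := hi (y - 1) (eq_neg_of_add_eq_zero_left h)
        rwa [map_sub, hf.alt, sub_zero] at this
      · have := hi (y + 1) (eq_neg_of_add_eq_zero_left h)
        rwa [map_add, hf.alt, add_zero] at this
    · exact hgood y hy
  · refine QuadraticJordanAlgebra.forms_vanish (A := plus ℤ D) (plus_div ℤ) (four_le h2 h3) ?_ ?_ f
      ⟨hf.alt, hf.inv⟩ 1 y
    · rintro ⟨F, _, φ, hc, _⟩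
      apply not_finite hnc
      have : Finite F := Nat.finite_of_card_ne_zero (by rw [hc]; norm_num)
      exact Finite.of_equiv F φ.toEquiv
    · rintro ⟨F, _, φ, hc, _⟩
      apply not_finite hnc
      have : Finite F := Nat.finite_of_card_ne_zero (by rw [hc]; norm_num)
      exact Finite.of_equiv F φ.toEquiv

theorem PInv.eq_zero {f : D →+ D →+ C} (hf : PInv f) (hnc : ∃ a b : D, a * b ≠ b * a) (x y : D) :
    f x y = 0 := by
  by_cases hx : x = 0
  · rw [hx, map_zero]; rfl
  have h := (hf.shift hx).one_eq_zero hnc (y * x⁻¹)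
  have h2 : f (1 * x) (y * x⁻¹ * x) = 0 := h
  rwa [one_mul, inv_mul_cancel_right₀ hx] at h2

end forms

end Pool.Agent.Helper4.Jordan
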