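import Pool.Agent.Helper4.Jordan.PlusForms

/-! Steinberg groups of noncommutative division rings are centrally closed. -/

namespace Pool.Agent.Helper4.Jordan

open QuadraticMap
open scoped IsMulCommutative

universe u v w

variable {R : Type u} {D : Type v} [CommRing R] [DivisionRing D] [Algebra R D]

/-- left multiplication -/
def lmul {u : D} (hu : u ≠ 0) : D ≃+ D where
  toFun a := u * a
  invFun a := u⁻¹ * a
  left_inv a := inv_mul_cancel_left₀ hu a
  right_inv a := mul_inv_cancel_left₀ hu a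
  map_add' a b := mul_add u a b

/-- right multiplication -/
def rmul {u : D} (hu : u ≠ 0) : D ≃+ D where
  toFun a := a * u
  invFun a := a * u⁻¹
  left_inv a := mul_inv_cancel_right₀ hu a
  right_inv a := inv_mul_cancel_right₀ hu a
  map_add' a b := add_mul a b u

variable (R) in
/-- `h_b = w_b w_1⁻¹` -/
noncomputable def hh (b : D) : (plus R D).St := (plus R D).w b * ((plus R D).w 1)⁻¹

lemma hh_true {b : D} (hb : b ≠ 0) (a : D) :
    hh R b * (plus R D).x true a * (hh R b)⁻¹ = (plus R D).x true (b * (a * b)) := by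
  have h1 := QuadraticJordanAlgebra.rel_inv' (A := plus R D) (b := 1) one_ne_zero a
  have h2 := QuadraticJordanAlgebra.rel (A := plus R D) hb a
  have h3 : (plus R D).U 1 a = a := by rw [plus_U]; simp
  rw [h3] at h1
  rw [← plus_U (R := R), ← h2, ← h1, hh]; group

lemma hh_false {b : D} (hb : b ≠ 0) (a : D) :
    hh R b * (plus R D).x false (b * (a * b)) * (hh R b)⁻¹ = (plus R D).x false a := by
  have h1 := QuadraticJordanAlgebra.rel_inv (A := plus R D) (plus_div R) (b := 1) one_ne_zero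
    (b * (a * b))
  have h2 := QuadraticJordanAlgebra.rel' (A := plus R D) (plus_div R) hb a
  have h3 : (plus R D).U 1 (b * (a * b)) = b * (a * b) := by rw [plus_U]; simp
  rw [h3] at h1
  rw [← h2, plus_U, ← h1, hh]; group

lemma hh_true' {b : D} (hb : b ≠ 0) (a : D) :
    (hh R b)⁻¹ * (plus R D).x true (b * (a * b)) * hh R b = (plus R D).x true a := by
  rw [← hh_true hb a]; group

lemma hh_false' {b : D} (hb : b ≠ 0) (a : D) :
    (hh R b)⁻¹ * (plus R D).x false a * hh R b = (plus R D).x false (b * (a * b)) := by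
  rw [← hh_false hb a]; group

lemma comm_ne_zero {b c : D} (hb : b ≠ 0) (hc : c ≠ 0) : b * c * b⁻¹ * c⁻¹ ≠ 0 :=
  mul_ne_zero (mul_ne_zero (mul_ne_zero hb hc) (inv_ne_zero hb)) (inv_ne_zero hc)

/-- the torus element given by a multiplicative commutator -/
noncomputable def plusTor {b c : D} (hb : b ≠ 0) (hc : c ≠ 0)
    (h1 : b * c * b⁻¹ * c⁻¹ - 1 ≠ 0) (h2 : (b * c * b⁻¹ * c⁻¹)⁻¹ - 1 ≠ 0) :
    QuadraticJordanAlgebra.Tor (plus R D) (plus_div R) where
  z := hh R b * hh R c * (hh R (c * b))⁻¹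
  T σ := match σ with
    | true => lmul (comm_ne_zero hb hc)
    | false => rmul (inv_ne_zero (comm_ne_zero hb hc))
  S σ := match σ with
    | true => lmul h1
    | false => rmul h2
  hS := by
    intro σ a
    cases σ with
    | true =>
      show (b * c * b⁻¹ * c⁻¹ - 1) * a = (b * c * b⁻¹ * c⁻¹) * a - a
      rw [sub_mul, one_mul]
    | false =>
      show a * ((b * c * b⁻¹ * c⁻¹)⁻¹ - 1) = a * (b * c * b⁻¹ * c⁻¹)⁻¹ - a
      rw [mul_sub, mul_one]
  hz := by
    intro σ a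
    have hcb : c * b ≠ 0 := mul_ne_zero hc hb
    cases σ with
    | true =>
      show _ = (plus R D).x true (b * c * b⁻¹ * c⁻¹ * a)
      have e1 := hh_true' (R := R) hcb (b⁻¹ * c⁻¹ * a * (b⁻¹ * c⁻¹))
      have e1' : c * b * (b⁻¹ * c⁻¹ * a * (b⁻¹ * c⁻¹) * (c * b)) = a := by
        rw [← mul_inv_rev, inv_mul_cancel_right₀ hcb, mul_inv_cancel_left₀ hcb]
      rw [e1'] at e1
      have e2 := hh_true (R := R) hc (b⁻¹ * c⁻¹ * a * (b⁻¹ * c⁻¹))
      have e2' : c * (b⁻¹ * c⁻¹ * a * (b⁻¹ * c⁻¹) * c) = c * (b⁻¹ * c⁻¹ * a * b⁻¹) := by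
        rw [← mul_assoc (b⁻¹ * c⁻¹ * a) b⁻¹ c⁻¹, inv_mul_cancel_right₀ hc]
      rw [e2'] at e2
      have e3 := hh_true (R := R) hb (c * (b⁻¹ * c⁻¹ * a * b⁻¹))
      have e3' : b * (c * (b⁻¹ * c⁻¹ * a * b⁻¹) * b) = b * c * b⁻¹ * c⁻¹ * a := by
        rw [← mul_assoc c, inv_mul_cancel_right₀ hb]; noncomm_ring
      rw [e3'] at e3
      rw [← e3, ← e2, ← e1]; group
    | false =>
      show _ = (plus R D).x false (a * (b * c * b⁻¹ * c⁻¹)⁻¹)
      have e1 := hh_false' (R := R) hcb a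
      have e2 := hh_false (R := R) hc (b * a * c * b * c⁻¹)
      have e2' : c * (b * a * c * b * c⁻¹ * c) = c * b * (a * (c * b)) := by
        rw [inv_mul_cancel_right₀ hc]; noncomm_ring
      rw [e2'] at e2
      have e3 := hh_false (R := R) hb (a * (b * c * b⁻¹ * c⁻¹)⁻¹)
      have e3' : b * (a * (b * c * b⁻¹ * c⁻¹)⁻¹ * b) = b * a * c * b * c⁻¹ := by
        rw [mul_inv_rev, mul_inv_rev, mul_inv_rev, inv_inv, inv_inv]
        have : a * (c * (b * (c⁻¹ * b⁻¹))) * b = a * (c * (b * c⁻¹)) := by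
          calc a * (c * (b * (c⁻¹ * b⁻¹))) * b = a * (c * (b * (c⁻¹ * (b⁻¹ * b)))) := by
                simp only [mul_assoc]
            _ = _ := by rw [inv_mul_cancel₀ hb, mul_one]
        rw [this]; noncomm_ring
      rw [e3'] at e3
      rw [← e3, ← e2, ← e1]; group
  hc := by
    intro d hd a
    have hsymm : ∀ a, (QuadraticJordanAlgebra.Ue (plus_div R) hd).symm a = d⁻¹ * a * d⁻¹ := by
      intro a
      rw [AddEquiv.symm_apply_eq]
      show a = d * (d⁻¹ * a * d⁻¹ * d)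
      rw [inv_mul_cancel_right₀ hd, mul_inv_cancel_left₀ hd]
    rw [hsymm, hsymm]
    show (b * c * b⁻¹ * c⁻¹) * (d * (d⁻¹ * a * d⁻¹ * (b * c * b⁻¹ * c⁻¹)⁻¹ * d)) =
      d * (d⁻¹ * ((b * c * b⁻¹ * c⁻¹) * a) * d⁻¹ * (b * c * b⁻¹ * c⁻¹)⁻¹ * d)
    simp only [mul_assoc, mul_inv_cancel_left₀ hd]

/-- **Theorem**: the Steinberg group of a noncommutative division ring is centrally closed. -/
theorem plus_centrallyClosed (R : Type u) (D : Type v) [CommRing R] [DivisionRing D] [Algebra R D]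
    (hnc : ∃ a b : D, a * b ≠ b * a) : IsCentrallyClosed.{v, w} (plus R D).St := by
  obtain ⟨b, c, hbc⟩ := hnc
  have hb : b ≠ 0 := by rintro rfl; simp at hbc
  have hc : c ≠ 0 := by rintro rfl; simp at hbc
  have h0 : b * c * b⁻¹ * c⁻¹ ≠ 1 := by
    intro h
    apply hbc
    calc b * c = (b * c * b⁻¹ * c⁻¹) * (c * b) := by
          rw [mul_assoc (b * c * b⁻¹), inv_mul_cancel_left₀ hc, mul_assoc (b * c),
            inv_mul_cancel₀ hb, mul_one]
      _ = c * b := by rw [h, one_mul]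
  have h1 : b * c * b⁻¹ * c⁻¹ - 1 ≠ 0 := sub_ne_zero.mpr h0
  have h2 : (b * c * b⁻¹ * c⁻¹)⁻¹ - 1 ≠ 0 := by
    rw [sub_ne_zero]
    intro h
    exact h0 (inv_eq_one.mp h)
  let Z := plusTor (R := R) hb hc h1 h2
  refine ⟨Z.perfect, ?_⟩
  intro E _ π hsurj hker
  refine QuadraticJordanAlgebra.splits Z hsurj hker (fun f hf a a' => ?_)
  exact PInv.eq_zero (f := f) ⟨hf.alt, hf.inv⟩ ⟨b, c, hbc⟩ a a'

end Pool.Agent.Helper4.Jordan
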