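import Pool.Agent.Helper4.Jordan.PlusMain

/-!
# The Steinberg group of a noncommutative division ring is centrally closed

For every noncommutative division ring `D` the Steinberg group `St(D⁺)` of the division Jordan
algebra `D⁺` (`U(b)a = bab`) is centrally closed. There is no hypothesis on the centre or the
characteristic of `D`; in particular the centre may be `𝔽₂`, `𝔽₃` or `𝔽₄`.

All definitions (quadratic Jordan algebras, the Steinberg group by generators and relations,
centrally closed groups) are in `Pool/Agent/Helper4/Jordan/Defs.lean`, and `plus R D` is defined
in `Pool/Agent/Helper4/Jordan/PlusDef.lean`.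
-/

namespace Pool.Agent.Results.MP_8712e2_al.SkewFields

open Pool.Agent.Helper4.Jordan

universe u v w

/-- Let `D` be a noncommutative division ring which is an algebra over a commutative ring `R`
(for instance `R = ℤ`). Then `St(D⁺)` is centrally closed. -/
theorem result {R : Type u} {D : Type v} [CommRing R] [DivisionRing D] [Algebra R D]
    (hD : ∃ a b : D, a * b ≠ b * a) :
    IsCentrallyClosed.{v, w} (plus R D).St :=
  plus_centrallyClosed R D hD

end Pool.Agent.Results.MP_8712e2_al.SkewFields
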