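import Pool.Agent.Helper4.Jordan.Defs

/-! Steinberg groups of division Jordan algebras. -/

namespace Pool.Agent.Helper4.Jordan

open QuadraticMap
open scoped commutatorElement

section central
variable {G E : Type*} [Group G] [Group E] {π : E →* G} (hker : π.ker ≤ Subgroup.center E)

include hker in
lemma exists_central {g g' : E} (h : π g = π g') : ∃ c : E, (∀ x, c * x = x * c) ∧ g' = g * c := by
  refine ⟨g⁻¹ * g', ?_, by group⟩
  have : g⁻¹ * g' ∈ π.ker := by rw [MonoidHom.mem_ker, map_mul, map_inv, h, inv_mul_cancel]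
  have h2 := hker this
  rw [Subgroup.mem_center_iff] at h2
  intro x
  exact (h2 x).symm

include hker in
lemma conj_eq {g g' : E} (h : π g = π g') (e : E) : g * e * g⁻¹ = g' * e * g'⁻¹ := by
  obtain ⟨c, hc, rfl⟩ := exists_central hker h
  rw [mul_inv_rev]
  calc g * e * g⁻¹ = g * (e * (c * c⁻¹)) * g⁻¹ := by group
    _ = g * (c * e * c⁻¹) * g⁻¹ := by rw [← mul_assoc e, ← hc e]
    _ = _ := by group

include hker in
lemma comm_eq {g g' e e' : E} (h : π g = π g') (h' : π e = π e') : ⁅g, e⁆ = ⁅g', e'⁆ := by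
  rw [commutatorElement_def, commutatorElement_def, conj_eq hker h]
  obtain ⟨c, hc, rfl⟩ := exists_central hker h'
  calc g' * e * g'⁻¹ * e⁻¹ = g' * e * g'⁻¹ * (c * c⁻¹) * e⁻¹ := by group
    _ = g' * e * (g'⁻¹ * c) * c⁻¹ * e⁻¹ := by group
    _ = g' * e * (c * g'⁻¹) * c⁻¹ * e⁻¹ := by rw [hc]
    _ = _ := by group

include hker in
lemma center_lift (hsurj : Function.Surjective π) (hperf : commutator G = ⊤) {g : E}
    (hg : ∀ x : G, π g * x = x * π g) : ∀ x : E, g * x = x * g := by
  -- the commutator with `g` is central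
  have hcen : ∀ e x : E, ⁅g, e⁆ * x = x * ⁅g, e⁆ := by
    intro e x
    have : ⁅g, e⁆ ∈ π.ker := by
      rw [MonoidHom.mem_ker, commutatorElement_def]
      simp only [map_mul, map_inv]
      rw [hg (π e)]; group
    have h2 := hker this
    rw [Subgroup.mem_center_iff] at h2
    exact (h2 x).symm
  have hmul : ∀ e e' : E, ⁅g, e * e'⁆ = ⁅g, e⁆ * ⁅g, e'⁆ := by
    intro e e'
    have h1 : ⁅g, e * e'⁆ = ⁅g, e⁆ * (e * ⁅g, e'⁆ * e⁻¹) := by
      simp only [commutatorElement_def]; group
    rw [h1, ← hcen e' e]; group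
  let χ : E →* E :=
    { toFun := fun e => ⁅g, e⁆
      map_one' := by simp
      map_mul' := hmul }
  have hχcomm : ∀ a b : E, χ ⁅a, b⁆ = 1 := by
    intro a b
    rw [map_commutatorElement, commutatorElement_eq_one_iff_commute]
    exact hcen a _
  have hle : commutator E ≤ χ.ker := by
    rw [commutator_def, Subgroup.commutator_le]
    intro a _ b _
    exact hχcomm a b
  intro x
  -- `π x` lies in the commutator subgroup
  have h1 : π x ∈ (commutator E).map π := by
    have h2 : (commutator E).map π = commutator G := by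
      rw [commutator_def, Subgroup.map_commutator, commutator_def]
      congr 1 <;>
      · rw [← MonoidHom.range_eq_map, MonoidHom.range_eq_top]
        exact hsurj
    rw [h2, hperf]; exact Subgroup.mem_top _
  obtain ⟨y, hy, hyx⟩ := h1
  have h3 : χ x = χ y := comm_eq hker rfl hyx.symm
  have h4 : χ y = 1 := hle hy
  rw [h4] at h3
  exact commutatorElement_eq_one_iff_mul_comm.mp h3

end central

namespace QuadraticJordanAlgebra

variable {k J : Type*} [CommRing k] [AddCommGroup J] [Module k J]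
  {A : QuadraticJordanAlgebra k J}

/-- generators -/
def x (A : QuadraticJordanAlgebra k J) (σ : Bool) (a : J) : A.St := PresentedGroup.of (σ, a)

noncomputable def w (A : QuadraticJordanAlgebra k J) (b : J) : A.St :=
  A.x false (A.inv b) * A.x true b * A.x false (A.inv b)

lemma x_add (σ : Bool) (a b : J) : A.x σ (a + b) = A.x σ a * A.x σ b := by
  have h : (PresentedGroup.mk A.stRels (FreeGroup.of (σ, a + b) *
      (FreeGroup.of (σ, a) * FreeGroup.of (σ, b))⁻¹)) = 1 := by
    apply PresentedGroup.one_of_mem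
    exact Or.inl ⟨σ, a, b, rfl⟩
  rw [map_mul, map_inv, mul_inv_eq_one, map_mul] at h
  exact h

lemma rel {b : J} (hb : b ≠ 0) (a : J) :
    A.w b * A.x false a * (A.w b)⁻¹ = A.x true (A.U b a) := by
  have h : (PresentedGroup.mk A.stRels (A.wWord b * FreeGroup.of (false, a) * (A.wWord b)⁻¹ *
      (FreeGroup.of (true, A.U b a))⁻¹)) = 1 := by
    apply PresentedGroup.one_of_mem
    exact Or.inr ⟨a, b, hb, rfl⟩
  rw [map_mul, map_inv, mul_inv_eq_one, map_mul, map_mul, map_inv, wWord, map_mul, map_mul] at h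
  exact h

lemma x_zero (σ : Bool) : A.x σ 0 = 1 := by
  have := A.x_add σ (0 : J) 0
  rw [add_zero] at this
  exact (left_eq_mul.mp this)

lemma x_neg (σ : Bool) (a : J) : A.x σ (-a) = (A.x σ a)⁻¹ := by
  rw [eq_inv_iff_mul_eq_one, ← x_add, neg_add_cancel, x_zero]

lemma x_sub (σ : Bool) (a b : J) : A.x σ (a - b) = A.x σ a * (A.x σ b)⁻¹ := by
  rw [sub_eq_add_neg, x_add, x_neg]

lemma closure_x : Subgroup.closure (Set.range (fun p : Bool × J => A.x p.1 p.2)) = ⊤ :=
  PresentedGroup.closure_range_of A.stRels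

variable (hdiv : A.IsDivision)

include hdiv in
lemma U_inv {b : J} (hb : b ≠ 0) : A.U b (A.inv b) = b :=
  Function.invFun_eq ((hdiv.2 b hb).2 b)

include hdiv in
lemma inv_unique {b c : J} (hb : b ≠ 0) (h : A.U b c = b) : c = A.inv b :=
  (hdiv.2 b hb).1 (by rw [h, U_inv hdiv hb])

include hdiv in
lemma inv_neg' {b : J} (hb : b ≠ 0) : A.inv (-b) = -A.inv b := by
  symm
  apply inv_unique hdiv (neg_ne_zero.mpr hb)
  rw [QuadraticMap.map_neg, map_neg, U_inv hdiv hb]

include hdiv in
lemma w_alt {b : J} (hb : b ≠ 0) : A.w b = A.x true b * A.x false (A.inv b) * A.x true b := by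
  have h := rel (A := A) hb (A.inv b)
  rw [U_inv hdiv hb, mul_inv_eq_iff_eq_mul] at h
  rw [w] at h ⊢
  have : A.x false (A.inv b) * A.x true b * A.x false (A.inv b) * A.x false (A.inv b) =
    (A.x true b * A.x false (A.inv b) * A.x true b) * A.x false (A.inv b) := by
    rw [h]; group
  exact mul_right_cancel this

include hdiv in
lemma w_neg {b : J} (hb : b ≠ 0) : A.w (-b) = (A.w b)⁻¹ := by
  rw [w, w, inv_neg' hdiv hb, x_neg, x_neg]; group

include hdiv in
lemma rel' {b : J} (hb : b ≠ 0) (a : J) :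
    A.w b * A.x true (A.U b a) * (A.w b)⁻¹ = A.x false a := by
  have h := rel (A := A) (neg_ne_zero.mpr hb) a
  rw [w_neg hdiv hb, QuadraticMap.map_neg, inv_inv] at h
  rw [← h]; group

include hdiv in
lemma rel_inv {b : J} (hb : b ≠ 0) (a : J) :
    (A.w b)⁻¹ * A.x false a * A.w b = A.x true (A.U b a) := by
  rw [← rel' hdiv hb a]; group

lemma rel_inv' {b : J} (hb : b ≠ 0) (a : J) :
    (A.w b)⁻¹ * A.x true (A.U b a) * A.w b = A.x false a := by
  rw [← rel (A := A) hb a]; group

/-- to be central in `St` it is enough to commute with the generators. -/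
lemma central_of_gen {g : A.St} (h : ∀ σ a, g * A.x σ a = A.x σ a * g) (y : A.St) :
    g * y = y * g := by
  have hy : y ∈ Subgroup.closure (Set.range (fun p : Bool × J => A.x p.1 p.2)) := by
    rw [closure_x]; exact Subgroup.mem_top _
  induction hy using Subgroup.closure_induction with
  | mem z hz => obtain ⟨p, rfl⟩ := hz; exact h _ _
  | one => simp
  | mul a b _ _ ha hb => rw [← mul_assoc, ha, mul_assoc, hb, mul_assoc]
  | inv a _ ha =>
    calc g * a⁻¹ = a⁻¹ * (a * g) * a⁻¹ := by group
      _ = a⁻¹ * (g * a) * a⁻¹ := by rw [ha]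
      _ = _ := by group

end QuadraticJordanAlgebra

end Pool.Agent.Helper4.Jordan
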