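import Mathlib

/-! Power associativity of quadratic Jordan algebras and invariant alternating forms. -/

namespace Pool.Agent.Helper4.Jordan

open QuadraticMap Polynomial

/-- unital quadratic Jordan algebras (identities not assumed in a strict form). -/
structure WQJ (k : Type*) (J : Type*) [CommRing k] [AddCommGroup J] [Module k J] where
  e : J
  U : QuadraticMap k J (Module.End k J)
  U_e : U e = 1
  QJ2 : ∀ a b c, polar U a (U a c) b = U a (polar U b c a)
  QJ3 : ∀ a b, U (U a b) = U a * U b * U a

namespace WQJ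

variable {k : Type*} {J : Type*} [CommRing k] [AddCommGroup J] [Module k J] (A : WQJ k J)

/-- powers -/
def pw (y : J) : ℕ → J
  | 0 => A.e
  | 1 => y
  | n + 2 => A.U y (pw y n)

lemma pw_zero (y : J) : A.pw y 0 = A.e := rfl
lemma pw_one (y : J) : A.pw y 1 = y := rfl
lemma pw_two (y : J) (n : ℕ) : A.pw y (n + 2) = A.U y (A.pw y n) := rfl

lemma U_pw (y : J) : ∀ n, A.U (A.pw y n) = A.U y ^ n
  | 0 => by rw [pw_zero, A.U_e, pow_zero]
  | 1 => by rw [pw_one, pow_one]
  | n + 2 => by
    rw [pw_two, A.QJ3, U_pw y n, ← pow_succ', ← pow_succ]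

lemma pow_pw (y : J) (l : ℕ) : ∀ m, (A.U y ^ m) (A.pw y l) = A.pw y (2 * m + l)
  | 0 => by simp
  | m + 1 => by
    rw [pow_succ', Module.End.mul_apply, pow_pw y l m, ← pw_two]
    congr 1; ring

lemma U_pw_pw (y : J) (m l : ℕ) : A.U (A.pw y m) (A.pw y l) = A.pw y (2 * m + l) := by
  rw [U_pw, pow_pw]

lemma polar_U_U (x b c : J) : polar A.U (A.U x b) (A.U x c) = A.U x * polar A.U b c * A.U x := by
  rw [polar, polar, ← map_add, A.QJ3, A.QJ3, A.QJ3]
  noncomm_ring

lemma triple_e (b c : J) : polar A.U A.e c b = polar A.U b c A.e := by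
  have := A.QJ2 A.e b c
  rw [A.U_e] at this
  exact this

lemma T_aux (y : J) (N : ℕ) : ∀ m l n, m + l + n = N →
    polar A.U (A.pw y m) (A.pw y n) (A.pw y l) = 2 • A.pw y N := by
  induction N using Nat.strong_induction_on with
  | _ N ih =>
    -- the case of two indices at least two
    have hA : ∀ m l n, (m + 2) + l + (n + 2) = N →
        polar A.U (A.pw y (m + 2)) (A.pw y (n + 2)) (A.pw y l) = 2 • A.pw y N := by
      intro m l n h
      rw [pw_two, pw_two, polar_U_U, Module.End.mul_apply, Module.End.mul_apply, ← pw_two,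
        ih (N - 2) (by omega) m (l + 2) n (by omega), map_nsmul, ← pw_two]
      congr 2; omega
    have hB : ∀ l n, 1 + l + (n + 2) = N →
        polar A.U (A.pw y 1) (A.pw y (n + 2)) (A.pw y l) = 2 • A.pw y N := by
      intro l n h
      rw [pw_two, pw_one, A.QJ2]
      have := ih (N - 2) (by omega) l 1 n (by omega)
      rw [pw_one] at this
      rw [this, map_nsmul, ← pw_two]
      congr 2; omega
    have h1 : ∀ l, 1 + l + 1 = N →
        polar A.U (A.pw y 1) (A.pw y 1) (A.pw y l) = 2 • A.pw y N := by
      intro l h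
      rw [pw_one, polar_self, LinearMap.smul_apply, ← pw_two]
      congr 2; omega
    have h0 : ∀ l, 0 + l + 0 = N →
        polar A.U (A.pw y 0) (A.pw y 0) (A.pw y l) = 2 • A.pw y N := by
      intro l h
      rw [pw_zero, polar_self, LinearMap.smul_apply, A.U_e, Module.End.one_apply]
      congr 2; omega
    -- the case `m = 0`
    have hC : ∀ l n, 0 + l + n = N →
        polar A.U (A.pw y 0) (A.pw y n) (A.pw y l) = 2 • A.pw y N := by
      intro l n h
      rcases Nat.eq_zero_or_pos n with rfl | hn
      · exact h0 l h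
      rw [pw_zero, triple_e, ← A.pw_zero y]
      rcases Nat.eq_zero_or_pos l with rfl | hl
      · rw [pw_zero, triple_e, polar_comm, ← A.pw_zero y]
        rw [pw_zero, ← A.triple_e, polar_self, LinearMap.smul_apply, A.U_e,
          Module.End.one_apply]
        congr 2; omega
      by_cases hl2 : 2 ≤ l <;> by_cases hn2 : 2 ≤ n
      · obtain ⟨l, rfl⟩ := Nat.exists_eq_add_of_le' hl2
        obtain ⟨n, rfl⟩ := Nat.exists_eq_add_of_le' hn2
        exact hA l 0 n (by omega)
      · obtain rfl : n = 1 := by omega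
        obtain ⟨l, rfl⟩ := Nat.exists_eq_add_of_le' hl2
        rw [polar_comm]
        exact hB 0 l (by omega)
      · obtain rfl : l = 1 := by omega
        obtain ⟨n, rfl⟩ := Nat.exists_eq_add_of_le' hn2
        exact hB 0 n (by omega)
      · obtain rfl : l = 1 := by omega
        obtain rfl : n = 1 := by omega
        exact h1 0 (by omega)
    intro m l n h
    rcases Nat.eq_zero_or_pos m with rfl | hm
    · exact hC l n h
    rcases Nat.eq_zero_or_pos n with rfl | hn
    · rw [polar_comm]; exact hC l m (by omega)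
    by_cases hm2 : 2 ≤ m <;> by_cases hn2 : 2 ≤ n
    · obtain ⟨m, rfl⟩ := Nat.exists_eq_add_of_le' hm2
      obtain ⟨n, rfl⟩ := Nat.exists_eq_add_of_le' hn2
      exact hA m l n h
    · obtain rfl : n = 1 := by omega
      obtain ⟨m, rfl⟩ := Nat.exists_eq_add_of_le' hm2
      rw [polar_comm]
      exact hB l m (by omega)
    · obtain rfl : m = 1 := by omega
      obtain ⟨n, rfl⟩ := Nat.exists_eq_add_of_le' hn2
      exact hB l n h
    · obtain rfl : m = 1 := by omega
      obtain rfl : n = 1 := by omega
      exact h1 l h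

lemma T_pw (y : J) (m l n : ℕ) :
    polar A.U (A.pw y m) (A.pw y n) (A.pw y l) = 2 • A.pw y (m + l + n) :=
  A.T_aux y _ m l n rfl

/-- evaluation of polynomials -/
noncomputable def ev (y : J) : k[X] →ₗ[k] J :=
  Polynomial.lsum (fun n => (LinearMap.toSpanSingleton k J (A.pw y n)))

lemma ev_monomial (y : J) (n : ℕ) (c : k) : A.ev y (monomial n c) = c • A.pw y n := by
  simp [ev, Polynomial.lsum_apply]

lemma ev_one (y : J) : A.ev y 1 = A.e := by
  have := A.ev_monomial y 0 1
  rw [one_smul, pw_zero] at this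
  exact this

lemma ev_C (y : J) (c : k) : A.ev y (C c) = c • A.e := A.ev_monomial y 0 c

lemma ev_X (y : J) : A.ev y X = y := by
  have := A.ev_monomial y 1 1
  rw [one_smul, pw_one] at this
  exact this

lemma ev_polar (y : J) (P P' Q : k[X]) :
    polar A.U (A.ev y P) (A.ev y P') (A.ev y Q) = 2 • A.ev y (P * P' * Q) := by
  induction P using Polynomial.induction_on' with
  | add p q hp hq =>
    rw [map_add, polar_add_left, LinearMap.add_apply, hp, hq, ← smul_add, ← map_add]
    congr 2; ring
  | monomial n a =>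
    induction P' using Polynomial.induction_on' with
    | add p q hp hq =>
      rw [map_add, polar_add_right, LinearMap.add_apply, hp, hq, ← smul_add, ← map_add]
      congr 2; ring
    | monomial n' a' =>
      induction Q using Polynomial.induction_on' with
      | add p q hp hq =>
        rw [map_add, map_add, hp, hq, ← smul_add, ← map_add]
        congr 2; ring
      | monomial l b =>
        rw [ev_monomial, ev_monomial, ev_monomial, polar_smul_left, polar_smul_right,
          LinearMap.smul_apply, LinearMap.smul_apply, map_smul, T_pw,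
          monomial_mul_monomial, monomial_mul_monomial, ev_monomial]
        have e : n + l + n' = n + n' + l := by ring
        rw [e]
        module

lemma ev_U (y : J) (P Q : k[X]) : A.U (A.ev y P) (A.ev y Q) = A.ev y (P ^ 2 * Q) := by
  induction P using Polynomial.induction_on' with
  | add p q hp hq =>
    have h : A.U (A.ev y p + A.ev y q) = A.U (A.ev y p) + A.U (A.ev y q) +
        polar A.U (A.ev y p) (A.ev y q) := QuadraticMap.map_add _ _ _
    rw [map_add, h, LinearMap.add_apply, LinearMap.add_apply, hp, hq, ev_polar, ← map_nsmul,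
      ← map_add, ← map_add]
    congr 1
    simp only [nsmul_eq_mul, Nat.cast_ofNat]
    ring
  | monomial n a =>
    induction Q using Polynomial.induction_on' with
    | add p q hp hq => rw [map_add, map_add, hp, hq, ← map_add]; congr 1; ring
    | monomial l b =>
      rw [ev_monomial, ev_monomial, QuadraticMap.map_smul, LinearMap.smul_apply, map_smul,
        U_pw_pw, pow_two, monomial_mul_monomial, monomial_mul_monomial, ev_monomial, smul_smul]
      congr 2
      ring

/-- division -/
def IsDiv : Prop := ∀ b : J, b ≠ 0 → Function.Bijective (A.U b)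

variable {A}

lemma IsDiv.ne_mul (h : A.IsDiv) (he : A.e ≠ 0) {y : J} {P Q : k[X]} (hP : A.ev y P ≠ 0)
    (hQ : A.ev y Q ≠ 0) : A.ev y (P * Q) ≠ 0 := by
  intro h0
  have h1 : A.U (A.ev y P) (A.U (A.ev y Q) A.e) = 0 := by
    rw [← A.ev_one y, ev_U, ev_U]
    have h2 : A.U (A.ev y (P * Q)) (A.ev y 1) = 0 := by rw [h0]; simp
    rw [ev_U] at h2
    rw [← h2]
    congr 1; ring
  have h3 : A.U (A.ev y Q) A.e = 0 := (h _ hP).1 (by rw [h1, map_zero])
  exact he ((h _ hQ).1 (by rw [h3, map_zero]))

lemma IsDiv.ne_pow (h : A.IsDiv) (he : A.e ≠ 0) {y : J} {P : k[X]} (hP : A.ev y P ≠ 0) (n : ℕ) :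
    A.ev y (P ^ n) ≠ 0 := by
  induction n with
  | zero => rw [pow_zero, ev_one]; exact he
  | succ n ih => rw [pow_succ]; exact h.ne_mul he ih hP

lemma IsDiv.prod_eq_zero (h : A.IsDiv) (he : A.e ≠ 0) {y : J} {ι : Type*} (s : Finset ι)
    (P : ι → k[X]) (h0 : A.ev y (∏ i ∈ s, P i) = 0) : ∃ i ∈ s, A.ev y (P i) = 0 := by
  classical
  induction s using Finset.induction_on with
  | empty => rw [Finset.prod_empty, ev_one] at h0; exact absurd h0 he
  | insert a s ha ih =>
    rw [Finset.prod_insert ha] at h0
    by_cases h1 : A.ev y (P a) = 0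
    · exact ⟨a, Finset.mem_insert_self _ _, h1⟩
    · by_cases h2 : A.ev y (∏ i ∈ s, P i) = 0
      · obtain ⟨i, hi, hi0⟩ := ih h2
        exact ⟨i, Finset.mem_insert_of_mem hi, hi0⟩
      · exact absurd h0 (h.ne_mul he h1 h2)

end WQJ

end Pool.Agent.Helper4.Jordan
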